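import Pool.Agent.MP_7857a6_al.StarTensor

/-!
# Unitarity of the associator
-/

open CategoryTheory CategoryTheory.Limits MonoidalCategory

open scoped ComplexConjugate Matrix

namespace MP_7857a6_al

universe v u

set_option linter.style.haveILetI false
set_option linter.unusedSectionVars false

variable {C : Type u} [Category.{v} C] [Abelian C] [Linear ℂ C] [SemiSimp C] {R : SimpleReps C}

variable [MonoidalCategory C] [MonoidalPreadditive C] [MonoidalLinear ℂ C]

variable (g : Gauge R)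

/-- The dual of the left product basis. -/
noncomputable def Gauge.cotreeL (a b c d : Fin R.n) (t : g.LIdx a b c d) :
    (R.S a ⊗ R.S b) ⊗ R.S c ⟶ R.S d :=
  (g.dual a b t.1 t.2.1 ▷ R.S c) ≫ g.dual t.1 c d t.2.2

/-- The dual of the right product basis. -/
noncomputable def Gauge.cotreeR (a b c d : Fin R.n) (s : g.RIdx a b c d) :
    R.S a ⊗ (R.S b ⊗ R.S c) ⟶ R.S d :=
  (R.S a ◁ g.dual b c s.1 s.2.1) ≫ g.dual a s.1 d s.2.2

lemma Gauge.total_cotreeR (a b c : Fin R.n) :
    ∑ d, ∑ s, g.cotreeR a b c d s ≫ g.treeR a b c d s = 𝟙 (R.S a ⊗ (R.S b ⊗ R.S c)) := by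
  have h1 : ∀ d s, g.cotreeR a b c d s ≫ g.treeR a b c d s =
      (R.S a ◁ g.dual b c s.1 s.2.1) ≫ (g.dual a s.1 d s.2.2 ≫ g.basis a s.1 d s.2.2) ≫
        (R.S a ◁ g.basis b c s.1 s.2.1) := by
    intro d s
    simp only [Gauge.cotreeR, Gauge.treeR, Category.assoc]
  simp_rw [h1, Fintype.sum_sigma, Fintype.sum_prod_type]
  rw [Finset.sum_comm]
  have h2 : ∀ f : Fin R.n, ∑ d, ∑ n : Fin (g.mult b c f), ∑ m : Fin (g.mult a f d),
      (R.S a ◁ g.dual b c f n) ≫ (g.dual a f d m ≫ g.basis a f d m) ≫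
        (R.S a ◁ g.basis b c f n) = R.S a ◁ ∑ n, g.dual b c f n ≫ g.basis b c f n := by
    intro f
    rw [Finset.sum_comm, whiskerLeft_sum]
    refine Finset.sum_congr rfl fun n _ => ?_
    simp_rw [← Preadditive.comp_sum, ← Preadditive.sum_comp]
    rw [g.total, Category.id_comp, whiskerLeft_comp]
  simp_rw [h2]
  rw [← whiskerLeft_sum, g.total, whiskerLeft_id]

lemma Gauge.total_cotreeL (a b c : Fin R.n) :
    ∑ d, ∑ s, g.cotreeL a b c d s ≫ g.treeL a b c d s = 𝟙 ((R.S a ⊗ R.S b) ⊗ R.S c) := by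
  have h1 : ∀ d s, g.cotreeL a b c d s ≫ g.treeL a b c d s =
      (g.dual a b s.1 s.2.1 ▷ R.S c) ≫ (g.dual s.1 c d s.2.2 ≫ g.basis s.1 c d s.2.2) ≫
        (g.basis a b s.1 s.2.1 ▷ R.S c) := by
    intro d s
    simp only [Gauge.cotreeL, Gauge.treeL, Category.assoc]
  simp_rw [h1, Fintype.sum_sigma, Fintype.sum_prod_type]
  rw [Finset.sum_comm]
  have h2 : ∀ f : Fin R.n, ∑ d, ∑ n : Fin (g.mult a b f), ∑ m : Fin (g.mult f c d),
      (g.dual a b f n ▷ R.S c) ≫ (g.dual f c d m ≫ g.basis f c d m) ≫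
        (g.basis a b f n ▷ R.S c) = (∑ n, g.dual a b f n ≫ g.basis a b f n) ▷ R.S c := by
    intro f
    rw [Finset.sum_comm, sum_whiskerRight]
    refine Finset.sum_congr rfl fun n _ => ?_
    simp_rw [← Preadditive.comp_sum, ← Preadditive.sum_comp]
    rw [g.total, Category.id_comp, comp_whiskerRight]
  simp_rw [h2]
  rw [← sum_whiskerRight, g.total, id_whiskerRight]

/-- frame of `(a ⊗ b) ⊗ c`. -/
noncomputable abbrev Gauge.frL (a b c : Fin R.n) : Frame R ((R.S a ⊗ R.S b) ⊗ R.S c) :=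
  ((Frame.simple R a).tensor g (Frame.simple R b)).tensor g (Frame.simple R c)

/-- frame of `a ⊗ (b ⊗ c)`. -/
noncomputable abbrev Gauge.frR (a b c : Fin R.n) : Frame R (R.S a ⊗ (R.S b ⊗ R.S c)) :=
  (Frame.simple R a).tensor g ((Frame.simple R b).tensor g (Frame.simple R c))

lemma Gauge.star_treeL (a b c d : Fin R.n) (t : g.LIdx a b c d) :
    (Frame.simple R d).star (g.frL a b c) (g.treeL a b c d t) = g.cotreeL a b c d t := by
  unfold Gauge.treeL Gauge.cotreeL
  rw [Frame.star_comp (Frame.simple R d) ((Frame.simple R t.1).tensor g (Frame.simple R c)),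
    Frame.star_basis, Frame.star_whiskerRight, Frame.star_basis]

lemma Gauge.star_treeR (a b c d : Fin R.n) (t : g.RIdx a b c d) :
    (Frame.simple R d).star (g.frR a b c) (g.treeR a b c d t) = g.cotreeR a b c d t := by
  unfold Gauge.treeR Gauge.cotreeR
  rw [Frame.star_comp (Frame.simple R d) ((Frame.simple R a).tensor g (Frame.simple R t.1)),
    Frame.star_basis, Frame.star_whiskerLeft, Frame.star_basis]

lemma Gauge.star_cotreeL (a b c d : Fin R.n) (t : g.LIdx a b c d) :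
    (g.frL a b c).star (Frame.simple R d) (g.cotreeL a b c d t) = g.treeL a b c d t := by
  rw [← g.star_treeL, Frame.star_star]

variable {g} in
lemma Gauge.star_assoc_simple (hg : g.UnitaryF) (a b c : Fin R.n) :
    (g.frL a b c).star (g.frR a b c) (α_ (R.S a) (R.S b) (R.S c)).hom =
      (α_ (R.S a) (R.S b) (R.S c)).inv := by
  choose M' hM' hM1 hM2 using hg a b c
  obtain ⟨M, hMM⟩ : ∃ M : ∀ d, g.RIdx a b c d → g.LIdx a b c d → ℂ, ∀ d s t, M' d s t = M d s t :=
    ⟨fun d s t => M' d s t, fun _ _ _ => rfl⟩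
  have hM : ∀ d t, g.treeL a b c d t ≫ (α_ (R.S a) (R.S b) (R.S c)).hom =
      ∑ s, M d s t • g.treeR a b c d s := by
    intro d t
    rw [hM' d t]
    refine Finset.sum_congr rfl fun s _ => ?_
    rw [hMM]
  have h1 : (α_ (R.S a) (R.S b) (R.S c)).hom =
      ∑ d, ∑ t, ∑ s, M d s t • (g.cotreeL a b c d t ≫ g.treeR a b c d s) := by
    conv_lhs => rw [← Category.id_comp (α_ (R.S a) (R.S b) (R.S c)).hom, ← g.total_cotreeL]
    rw [Preadditive.sum_comp]
    refine Finset.sum_congr rfl fun d _ => ?_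
    rw [Preadditive.sum_comp]
    refine Finset.sum_congr rfl fun t _ => ?_
    rw [Category.assoc, hM d t, Preadditive.comp_sum]
    refine Finset.sum_congr rfl fun s _ => ?_
    rw [Linear.comp_smul]
  have h2 : (g.frL a b c).star (g.frR a b c) (α_ (R.S a) (R.S b) (R.S c)).hom =
      ∑ d, ∑ t, ∑ s, conj (M d s t) • (g.cotreeR a b c d s ≫ g.treeL a b c d t) := by
    conv_lhs => rw [h1]
    simp_rw [Frame.star_sum, Frame.star_smul]
    refine Finset.sum_congr rfl fun d _ => Finset.sum_congr rfl fun t _ =>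
      Finset.sum_congr rfl fun s _ => ?_
    rw [(g.frL a b c).star_comp (Frame.simple R d) (g.frR a b c), g.star_treeR,
      g.star_cotreeL]
  have h3 : (g.frL a b c).star (g.frR a b c) (α_ (R.S a) (R.S b) (R.S c)).hom ≫
      (α_ (R.S a) (R.S b) (R.S c)).hom = 𝟙 _ := by
    rw [h2, ← g.total_cotreeR]
    rw [Preadditive.sum_comp]
    refine Finset.sum_congr rfl fun d _ => ?_
    simp_rw [Preadditive.sum_comp, Linear.smul_comp, Category.assoc, hM d,
      Preadditive.comp_sum, Linear.comp_smul, Finset.smul_sum, smul_smul]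
    have h4 : ∀ s s', ∑ t, conj (M d s t) * M d s' t = if s' = s then 1 else 0 := by
      intro s s'
      have := congrFun (congrFun (hM2 d) s') s
      rw [Matrix.mul_apply, Matrix.one_apply] at this
      rw [← this]
      refine Finset.sum_congr rfl fun t _ => ?_
      rw [Matrix.conjTranspose_apply, mul_comm, hMM, hMM]
      rfl
    rw [Finset.sum_comm]
    refine Finset.sum_congr rfl fun s _ => ?_
    rw [Finset.sum_comm]
    simp_rw [← Finset.sum_smul, h4]
    simp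
  rw [← Category.comp_id ((g.frL a b c).star (g.frR a b c) (α_ (R.S a) (R.S b) (R.S c)).hom),
    ← (α_ (R.S a) (R.S b) (R.S c)).hom_inv_id, ← Category.assoc, h3, Category.id_comp]

variable {g} in
lemma Frame.star_assoc (hg : g.UnitaryF) {X Y Z : C} (F : Frame R X) (G : Frame R Y)
    (H : Frame R Z) :
    ((F.tensor g G).tensor g H).star (F.tensor g (G.tensor g H)) (α_ X Y Z).hom =
      (α_ X Y Z).inv := by
  have hid : 𝟙 ((X ⊗ Y) ⊗ Z) = ∑ c, ∑ l, ∑ b, ∑ k, ∑ a, ∑ j,
      (((F.prj a j ≫ F.inc a j) ⊗ₘ (G.prj b k ≫ G.inc b k)) ⊗ₘ (H.prj c l ≫ H.inc c l)) := by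
    calc _ = ((∑ a, ∑ j, F.prj a j ≫ F.inc a j) ⊗ₘ (∑ b, ∑ k, G.prj b k ≫ G.inc b k)) ⊗ₘ
          (∑ c, ∑ l, H.prj c l ≫ H.inc c l) := by
          rw [F.total, G.total, H.total]; simp
      _ = _ := by
          simp only [sum_tensor, tensor_sum]
  have hid' : 𝟙 (X ⊗ (Y ⊗ Z)) = ∑ c, ∑ l, ∑ b, ∑ k, ∑ a, ∑ j,
      ((F.prj a j ≫ F.inc a j) ⊗ₘ ((G.prj b k ≫ G.inc b k) ⊗ₘ (H.prj c l ≫ H.inc c l))) := by
    calc _ = (∑ a, ∑ j, F.prj a j ≫ F.inc a j) ⊗ₘ ((∑ b, ∑ k, G.prj b k ≫ G.inc b k) ⊗ₘ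
          (∑ c, ∑ l, H.prj c l ≫ H.inc c l)) := by
          rw [F.total, G.total, H.total]; simp
      _ = _ := by
          simp only [sum_tensor, tensor_sum]
  have h1 : (α_ X Y Z).hom = ∑ c, ∑ l, ∑ b, ∑ k, ∑ a, ∑ j,
      ((F.prj a j ⊗ₘ G.prj b k) ⊗ₘ H.prj c l) ≫ (α_ (R.S a) (R.S b) (R.S c)).hom ≫
        (F.inc a j ⊗ₘ (G.inc b k ⊗ₘ H.inc c l)) := by
    conv_lhs => rw [← Category.id_comp (α_ X Y Z).hom, hid]
    simp_rw [Preadditive.sum_comp]
    refine Finset.sum_congr rfl fun c _ => Finset.sum_congr rfl fun l _ =>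
      Finset.sum_congr rfl fun b _ => Finset.sum_congr rfl fun k _ =>
      Finset.sum_congr rfl fun a _ => Finset.sum_congr rfl fun j _ => ?_
    rw [← associator_naturality]
    simp only [tensorHom_comp_tensorHom_assoc, tensorHom_comp_tensorHom]
  have h2 : (α_ X Y Z).inv = ∑ c, ∑ l, ∑ b, ∑ k, ∑ a, ∑ j,
      (F.prj a j ⊗ₘ (G.prj b k ⊗ₘ H.prj c l)) ≫ (α_ (R.S a) (R.S b) (R.S c)).inv ≫
        ((F.inc a j ⊗ₘ G.inc b k) ⊗ₘ H.inc c l) := by
    conv_lhs => rw [← Category.id_comp (α_ X Y Z).inv, hid']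
    simp_rw [Preadditive.sum_comp]
    refine Finset.sum_congr rfl fun c _ => Finset.sum_congr rfl fun l _ =>
      Finset.sum_congr rfl fun b _ => Finset.sum_congr rfl fun k _ =>
      Finset.sum_congr rfl fun a _ => Finset.sum_congr rfl fun j _ => ?_
    rw [← associator_inv_naturality]
    simp only [tensorHom_comp_tensorHom_assoc, tensorHom_comp_tensorHom]
  conv_lhs => rw [h1]
  rw [h2]
  simp_rw [Frame.star_sum]
  refine Finset.sum_congr rfl fun c _ => Finset.sum_congr rfl fun l _ =>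
    Finset.sum_congr rfl fun b _ => Finset.sum_congr rfl fun k _ =>
    Finset.sum_congr rfl fun a _ => Finset.sum_congr rfl fun j _ => ?_
  rw [Frame.star_comp _ (g.frL a b c) _, Frame.star_comp _ (g.frR a b c) _,
    g.star_assoc_simple hg, Frame.star_tensor, Frame.star_tensor, Frame.star_tensor,
    Frame.star_tensor, Frame.star_prj, Frame.star_prj, Frame.star_prj, Frame.star_inc,
    Frame.star_inc, Frame.star_inc, Category.assoc]

end MP_7857a6_al
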