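import Pool.Agent.MP_7857a6_al.Defs

/-!
# Braidings on C*-tensor categories are unitary (abstract argument)
-/

open CategoryTheory CategoryTheory.Limits MonoidalCategory

open scoped ComplexConjugate Matrix

namespace MP_7857a6_al

universe v u

set_option linter.style.haveILetI false
set_option linter.unusedSectionVars false

namespace CStarStructure

section Basic

variable {D : Type u} [Category.{v} D] [Preadditive D] [Linear ℂ D] (T : CStarStructure D)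

lemma star_id (X : D) : T.star (𝟙 X) = 𝟙 X := by
  have h := T.star_comp (T.star (𝟙 X)) (𝟙 X)
  rw [Category.comp_id, T.star_star, Category.comp_id] at h
  exact h.symm

lemma star_zero {X Y : D} : T.star (0 : X ⟶ Y) = 0 := by
  have h := T.star_smul (0 : ℂ) (0 : X ⟶ Y)
  simpa using h

lemma star_sub {X Y : D} (f g : X ⟶ Y) : T.star (f - g) = T.star f - T.star g := by
  have h : f - g = f + (-1 : ℂ) • g := by simp [sub_eq_add_neg]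
  rw [h, T.star_add, T.star_smul]
  simp [sub_eq_add_neg]

lemma star_sum {X Y : D} {ι : Type*} (s : Finset ι) (f : ι → (X ⟶ Y)) :
    T.star (∑ x ∈ s, f x) = ∑ x ∈ s, T.star (f x) := by
  classical
  induction s using Finset.induction_on with
  | empty => simp [star_zero]
  | insert a s ha ih => rw [Finset.sum_insert ha, Finset.sum_insert ha, T.star_add, ih]

/-- The object has only scalar endomorphisms. -/
def IsScalar (X : D) : Prop := 𝟙 X ≠ 0 ∧ ∀ f : X ⟶ X, ∃ z : ℂ, f = z • 𝟙 X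

/-- The squared norm. -/
noncomputable def N {X Y : D} (f : X ⟶ Y) : ℝ := T.norm f ^ 2

lemma N_nonneg {X Y : D} (f : X ⟶ Y) : 0 ≤ T.N f := sq_nonneg _

lemma N_eq_zero {X Y : D} (f : X ⟶ Y) : T.N f = 0 ↔ f = 0 := by
  unfold N
  rw [sq_eq_zero_iff, T.norm_eq_zero]

lemma comp_star {X Y : D} (hX : IsScalar X) (f : X ⟶ Y) :
    f ≫ T.star f = ((T.N f : ℝ) : ℂ) • 𝟙 X := by
  have h1 : T.norm (𝟙 X) = 1 := by
    have h2 := T.norm_cstar (𝟙 X)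
    rw [T.star_id, Category.comp_id, sq] at h2
    have h3 : T.norm (𝟙 X) ≠ 0 := by rw [Ne, T.norm_eq_zero]; exact hX.1
    exact (mul_eq_left₀ h3).mp h2.symm
  obtain ⟨h, hh⟩ := T.positive f
  obtain ⟨z, hz⟩ := hX.2 h
  have h4 : f ≫ T.star f = ((‖z‖ ^ 2 : ℝ) : ℂ) • 𝟙 X := by
    rw [hh, hz, T.star_smul, T.star_id, Linear.smul_comp, Linear.comp_smul, Category.comp_id,
      smul_smul]
    congr 1
    rw [Complex.mul_conj']
    push_cast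
    rfl
  have h5 := T.norm_cstar f
  rw [h4, T.norm_smul, h1, mul_one, Complex.norm_real, Real.norm_of_nonneg (by positivity)] at h5
  rw [h4, h5]
  rfl

lemma real_of_smul {X : D} (hX : IsScalar X) {x y : ℝ} (h : (x : ℂ) • 𝟙 X = (y : ℂ) • 𝟙 X) :
    x = y := by
  have h1 : ((x : ℂ) - y) • 𝟙 X = 0 := by rw [sub_smul, h, sub_self]
  rcases smul_eq_zero.mp h1 with h2 | h2
  · exact_mod_cast sub_eq_zero.mp h2
  · exact absurd h2 hX.1

lemma N_smul {X Y : D} (z : ℂ) (f : X ⟶ Y) : T.N (z • f) = ‖z‖ ^ 2 * T.N f := by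
  unfold N
  rw [T.norm_smul]; ring

lemma N_comp_of {X Y Z : D} (hX : IsScalar X) (f : X ⟶ Y) (u : Y ⟶ Z) (t : ℝ)
    (hu : u ≫ T.star u = (t : ℂ) • 𝟙 Y) : T.N (f ≫ u) = t * T.N f := by
  apply real_of_smul hX
  rw [← T.comp_star hX, T.star_comp, Category.assoc, ← Category.assoc u, hu, Linear.smul_comp,
    Category.id_comp, Linear.comp_smul, T.comp_star hX, smul_smul]
  push_cast
  rfl

lemma N_comp_iso {X Y Z : D} (hX : IsScalar X) (f : X ⟶ Y) (u : Y ⟶ Z)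
    (hu : u ≫ T.star u = 𝟙 Y) : T.N (f ≫ u) = T.N f := by
  rw [T.N_comp_of hX f u 1 (by simpa using hu), one_mul]

lemma parseval {X Y : D} (hX : IsScalar X) (f : X ⟶ Y) {J : Type*} [Fintype J] {Z : J → D}
    (p : ∀ j, Y ⟶ Z j) (hp : ∑ j, p j ≫ T.star (p j) = 𝟙 Y) :
    T.N f = ∑ j, T.N (f ≫ p j) := by
  apply real_of_smul hX
  rw [← T.comp_star hX, Complex.ofReal_sum, Finset.sum_smul]
  have h : f ≫ T.star f = (f ≫ ∑ j, p j ≫ T.star (p j)) ≫ T.star f := by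
    rw [hp, Category.comp_id]
  rw [h, Preadditive.comp_sum, Preadditive.sum_comp]
  refine Finset.sum_congr rfl fun j _ => ?_
  rw [← T.comp_star hX, T.star_comp]
  simp

end Basic

section Tensor

variable {D : Type u} [Category.{v} D] [Preadditive D] [Linear ℂ D] [MonoidalCategory D]
  [MonoidalPreadditive D] [MonoidalLinear ℂ D] {T : CStarStructure D} (hT : T.IsTensor)

include hT

lemma IsTensor.star_whiskerRight {X Y : D} (f : X ⟶ Y) (Z : D) :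
    T.star (f ▷ Z) = T.star f ▷ Z := by
  rw [← tensorHom_id, hT.star_tensor, T.star_id, tensorHom_id]

lemma IsTensor.star_whiskerLeft {X Y : D} (f : X ⟶ Y) (Z : D) :
    T.star (Z ◁ f) = Z ◁ T.star f := by
  rw [← id_tensorHom, hT.star_tensor, T.star_id, id_tensorHom]

lemma IsTensor.star_associator_inv (X Y Z : D) : T.star (α_ X Y Z).inv = (α_ X Y Z).hom := by
  rw [← hT.star_associator, T.star_star]

lemma IsTensor.star_leftUnitor_inv (X : D) : T.star (λ_ X).inv = (λ_ X).hom := by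
  rw [← hT.star_leftUnitor, T.star_star]

lemma IsTensor.star_rightUnitor_inv (X : D) : T.star (ρ_ X).inv = (ρ_ X).hom := by
  rw [← hT.star_rightUnitor, T.star_star]

end Tensor

end CStarStructure

section Half

variable {D : Type u} [Category.{v} D] [Preadditive D] [Linear ℂ D] [MonoidalCategory D]
  [MonoidalPreadditive D] [MonoidalLinear ℂ D]

/-- A (one-sided) half-braiding. -/
structure Half (A : D) where
  /-- the maps -/
  h : ∀ Y : D, A ⊗ Y ⟶ Y ⊗ A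
  nat : ∀ {Y Y' : D} (f : Y ⟶ Y'), (A ◁ f) ≫ h Y' = h Y ≫ (f ▷ A)
  hex : ∀ Y Z : D, (α_ A Y Z).hom ≫ h (Y ⊗ Z) ≫ (α_ Y Z A).hom =
    (h Y ▷ Z) ≫ (α_ Y A Z).hom ≫ (Y ◁ h Z)

/-- The structure of simple objects needed in the argument. -/
structure Nice (T : CStarStructure D) {n : ℕ} (s : Fin n → D) : Prop where
  scalar : ∀ i, CStarStructure.IsScalar (s i)
  decomp : ∀ X : D, ∃ (J : Type) (_ : Fintype J) (l : J → Fin n) (p : ∀ j, X ⟶ s (l j)),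
    ∑ j, p j ≫ T.star (p j) = 𝟙 X
  pos : ∀ (X : D) (P : X ⟶ X), T.star P = P →
    (∀ (i : Fin n) (ξ : s i ⟶ X), ∃ r : ℝ, 0 ≤ r ∧ ξ ≫ P ≫ T.star ξ = (r : ℂ) • 𝟙 (s i)) →
    ∃ k : X ⟶ X, P = k ≫ T.star k

/-- The basic vector. -/
noncomputable def zeta (A Z Zb : D) (r : 𝟙_ D ⟶ Z ⊗ Zb) : A ⟶ (A ⊗ Z) ⊗ Zb :=
  (ρ_ A).inv ≫ (A ◁ r) ≫ (α_ A Z Zb).inv

/-- the coherence identity (a). -/
lemma coherence_a (A Y Z Zb : D) (r : 𝟙_ D ⟶ Z ⊗ Zb) :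
    (ρ_ (Y ⊗ A)).inv ≫ ((Y ⊗ A) ◁ r) ≫ (α_ (Y ⊗ A) Z Zb).inv ≫ ((α_ Y A Z).hom ▷ Zb) =
      (Y ◁ zeta A Z Zb r) ≫ (α_ Y (A ⊗ Z) Zb).inv := by
  unfold zeta
  monoidal

lemma key_identity {A : D} (H : Half A) (Y Z Zb : D) (r : 𝟙_ D ⟶ Z ⊗ Zb) :
    ((ρ_ (A ⊗ Y)).inv ≫ ((A ⊗ Y) ◁ r) ≫ (α_ (A ⊗ Y) Z Zb).inv ≫ ((α_ A Y Z).hom ▷ Zb)) ≫
      (H.h (Y ⊗ Z) ▷ Zb) ≫ ((α_ Y Z A).hom ▷ Zb) =
    H.h Y ≫ (Y ◁ (zeta A Z Zb r ≫ (H.h Z ▷ Zb))) ≫ (α_ Y (Z ⊗ A) Zb).inv := by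
  calc ((ρ_ (A ⊗ Y)).inv ≫ ((A ⊗ Y) ◁ r) ≫ (α_ (A ⊗ Y) Z Zb).inv ≫ ((α_ A Y Z).hom ▷ Zb)) ≫
      (H.h (Y ⊗ Z) ▷ Zb) ≫ ((α_ Y Z A).hom ▷ Zb)
      = (ρ_ (A ⊗ Y)).inv ≫ ((A ⊗ Y) ◁ r) ≫ (α_ (A ⊗ Y) Z Zb).inv ≫
        (((α_ A Y Z).hom ≫ H.h (Y ⊗ Z) ≫ (α_ Y Z A).hom) ▷ Zb) := by
        simp only [comp_whiskerRight, Category.assoc]
    _ = (ρ_ (A ⊗ Y)).inv ≫ ((A ⊗ Y) ◁ r) ≫ (α_ (A ⊗ Y) Z Zb).inv ≫
        (((H.h Y ▷ Z) ≫ (α_ Y A Z).hom ≫ (Y ◁ H.h Z)) ▷ Zb) := by rw [H.hex]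
    _ = (ρ_ (A ⊗ Y)).inv ≫ ((A ⊗ Y) ◁ r) ≫ ((α_ (A ⊗ Y) Z Zb).inv ≫ ((H.h Y ▷ Z) ▷ Zb)) ≫
        ((α_ Y A Z).hom ▷ Zb) ≫ ((Y ◁ H.h Z) ▷ Zb) := by
        simp only [comp_whiskerRight, Category.assoc]
    _ = (ρ_ (A ⊗ Y)).inv ≫ (((A ⊗ Y) ◁ r) ≫ (H.h Y ▷ (Z ⊗ Zb))) ≫ (α_ (Y ⊗ A) Z Zb).inv ≫
        ((α_ Y A Z).hom ▷ Zb) ≫ ((Y ◁ H.h Z) ▷ Zb) := by
        rw [← associator_inv_naturality_left]; simp only [Category.assoc]
    _ = ((ρ_ (A ⊗ Y)).inv ≫ (H.h Y ▷ 𝟙_ D)) ≫ ((Y ⊗ A) ◁ r) ≫ (α_ (Y ⊗ A) Z Zb).inv ≫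
        ((α_ Y A Z).hom ▷ Zb) ≫ ((Y ◁ H.h Z) ▷ Zb) := by
        rw [whisker_exchange]; simp only [Category.assoc]
    _ = H.h Y ≫ ((ρ_ (Y ⊗ A)).inv ≫ ((Y ⊗ A) ◁ r) ≫ (α_ (Y ⊗ A) Z Zb).inv ≫
        ((α_ Y A Z).hom ▷ Zb)) ≫ ((Y ◁ H.h Z) ▷ Zb) := by
        rw [← rightUnitor_inv_naturality]; simp only [Category.assoc]
    _ = H.h Y ≫ ((Y ◁ zeta A Z Zb r) ≫ (α_ Y (A ⊗ Z) Zb).inv) ≫ ((Y ◁ H.h Z) ▷ Zb) := by
        rw [coherence_a]
    _ = _ := by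
        rw [whiskerLeft_comp]
        simp only [Category.assoc]
        rw [associator_inv_naturality_middle]

/-- the zigzag identity, whiskered. -/
lemma coherence_b (A Z Zb W : D) (r : 𝟙_ D ⟶ Z ⊗ Zb) (e : Zb ⊗ Z ⟶ 𝟙_ D)
    (hz : (r ▷ Z) ≫ (α_ Z Zb Z).hom ≫ (Z ◁ e) = (λ_ Z).hom ≫ (ρ_ Z).inv) (k : A ⊗ Z ⟶ W) :
    (zeta A Z Zb r ▷ Z) ≫ ((k ▷ Zb) ▷ Z) ≫ (α_ W Zb Z).hom ≫ (W ◁ e) ≫ (ρ_ W).hom = k := by
  calc (zeta A Z Zb r ▷ Z) ≫ ((k ▷ Zb) ▷ Z) ≫ (α_ W Zb Z).hom ≫ (W ◁ e) ≫ (ρ_ W).hom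
      = (zeta A Z Zb r ▷ Z) ≫ (α_ (A ⊗ Z) Zb Z).hom ≫ ((A ⊗ Z) ◁ e) ≫ (ρ_ (A ⊗ Z)).hom ≫ k := by
        rw [associator_naturality_left_assoc, ← whisker_exchange_assoc, rightUnitor_naturality]
    _ = ((ρ_ A).inv ▷ Z) ≫ (α_ A (𝟙_ D) Z).hom ≫
          (A ◁ ((r ▷ Z) ≫ (α_ Z Zb Z).hom ≫ (Z ◁ e))) ≫ (A ◁ (ρ_ Z).hom) ≫ k := by
        unfold zeta
        monoidal
    _ = k := by
        rw [hz]
        monoidal

section Main

variable {T : CStarStructure D} (hT : T.IsTensor) {n : ℕ} {s : Fin n → D} (hN : Nice T s)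

include hT hN

variable {a : Fin n} (H : Half (s a))

/-- Existence of the bound. -/
lemma exists_bound : ∃ M : ℝ, 0 ≤ M ∧
    (∀ (y d : Fin n) (ξ : s d ⟶ s a ⊗ s y), T.N (ξ ≫ H.h (s y)) ≤ M * T.N ξ) ∧
    (∀ t : ℝ, 0 ≤ t → (∀ (y d : Fin n) (ξ : s d ⟶ s a ⊗ s y),
      t * T.N (ξ ≫ H.h (s y)) ≤ M * T.N ξ) → t * M ≤ M) := by
  classical
  set A : Set ℝ := {x | ∃ (y d : Fin n) (ξ : s d ⟶ s a ⊗ s y), T.N ξ ≤ 1 ∧
    x = T.N (ξ ≫ H.h (s y))} with hA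
  have h0 : (0 : ℝ) ∈ A := ⟨a, a, 0, by rw [(T.N_eq_zero _).mpr rfl]; norm_num, by
    rw [zero_comp, (T.N_eq_zero _).mpr rfl]⟩
  have hcomp : ∀ {X Y Z : D} (f : X ⟶ Y) (g : Y ⟶ Z), T.N (f ≫ g) ≤ T.N f * T.N g := by
    intro X Y Z f g
    unfold CStarStructure.N
    rw [← mul_pow]
    exact pow_le_pow_left₀ (T.norm_nonneg _) (T.norm_comp_le f g) 2
  have hbdd : BddAbove A := by
    refine ⟨∑ y, T.N (H.h (s y)), ?_⟩
    rintro x ⟨y, d, ξ, hξ, rfl⟩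
    calc T.N (ξ ≫ H.h (s y)) ≤ T.N ξ * T.N (H.h (s y)) := hcomp _ _
      _ ≤ 1 * T.N (H.h (s y)) := mul_le_mul_of_nonneg_right hξ (T.N_nonneg _)
      _ = T.N (H.h (s y)) := one_mul _
      _ ≤ ∑ y, T.N (H.h (s y)) :=
        Finset.single_le_sum (f := fun y => T.N (H.h (s y))) (fun y _ => T.N_nonneg _)
          (Finset.mem_univ y)
  refine ⟨sSup A, le_csSup hbdd h0, ?_, ?_⟩
  · intro y d ξ
    rcases (T.N_nonneg ξ).eq_or_lt with h | h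
    · have h1 : ξ = 0 := (T.N_eq_zero ξ).mp h.symm
      rw [h1, zero_comp, (T.N_eq_zero _).mpr rfl, (T.N_eq_zero _).mpr rfl, mul_zero]
    · set c : ℝ := (Real.sqrt (T.N ξ))⁻¹ with hc
      have hcn : ‖(c : ℂ)‖ ^ 2 = (T.N ξ)⁻¹ := by
        rw [Complex.norm_real, Real.norm_of_nonneg (by positivity), hc, inv_pow,
          Real.sq_sqrt h.le]
      have h2 : T.N (((c : ℂ) • ξ) ≫ H.h (s y)) ≤ sSup A := by
        refine le_csSup hbdd ⟨y, d, (c : ℂ) • ξ, ?_, rfl⟩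
        rw [T.N_smul, hcn, inv_mul_cancel₀ h.ne']
      rw [Linear.smul_comp, T.N_smul, hcn] at h2
      rw [inv_mul_le_iff₀ h] at h2
      linarith
  · intro t ht h
    rcases ht.eq_or_lt with rfl | ht
    · rw [zero_mul]; exact le_csSup hbdd h0
    · have h3 : sSup A ≤ sSup A / t := by
        apply csSup_le ⟨0, h0⟩
        rintro x ⟨y, d, ξ, hξ, rfl⟩
        rw [le_div_iff₀ ht]
        calc T.N (ξ ≫ H.h (s y)) * t = t * T.N (ξ ≫ H.h (s y)) := mul_comm _ _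
          _ ≤ sSup A * T.N ξ := h y d ξ
          _ ≤ sSup A * 1 := mul_le_mul_of_nonneg_left hξ (le_csSup hbdd h0)
          _ = sSup A := mul_one _
      rw [le_div_iff₀ ht] at h3
      linarith

omit [MonoidalPreadditive D] [MonoidalLinear ℂ D] hT in
lemma smul_ext_le {x : Fin n} {u v : ℝ} (h : ((u - v : ℝ) : ℂ) • 𝟙 (s x) =
    ((T.N (0 : s x ⟶ s x) : ℝ) : ℂ) • 𝟙 (s x)) : v ≤ u := by
  have := CStarStructure.real_of_smul (hN.scalar x) h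
  rw [(T.N_eq_zero _).mpr rfl] at this
  linarith

/-- The bound on simple objects, amplified. -/
lemma bound_simple {M : ℝ}
    (hM : ∀ (y d : Fin n) (ξ : s d ⟶ s a ⊗ s y), T.N (ξ ≫ H.h (s y)) ≤ M * T.N ξ)
    (w d : Fin n) (Q : D) (ζ : s d ⟶ (s a ⊗ s w) ⊗ Q) :
    T.N (ζ ≫ (H.h (s w) ▷ Q)) ≤ M * T.N ζ := by
  obtain ⟨k, hk⟩ := hN.pos (s a ⊗ s w) ((M : ℂ) • 𝟙 _ - H.h (s w) ≫ T.star (H.h (s w)))
    (by rw [T.star_sub, T.star_smul, T.star_id, T.star_comp, T.star_star, Complex.conj_ofReal])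
    (by
      intro i ξ
      refine ⟨M * T.N ξ - T.N (ξ ≫ H.h (s w)), by linarith [hM w i ξ], ?_⟩
      rw [Preadditive.sub_comp, Preadditive.comp_sub, Linear.smul_comp, Linear.comp_smul,
        Category.id_comp, T.comp_star (hN.scalar i), Category.assoc, ← Category.assoc ξ,
        ← T.star_comp, T.comp_star (hN.scalar i), smul_smul, ← sub_smul]
      push_cast
      rfl)
  have h1 : (((M * T.N ζ - T.N (ζ ≫ (H.h (s w) ▷ Q)) : ℝ) : ℂ)) • 𝟙 (s d) =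
      ((T.N (ζ ≫ (k ▷ Q)) : ℝ) : ℂ) • 𝟙 (s d) := by
    rw [← T.comp_star (hN.scalar d) (ζ ≫ (k ▷ Q))]
    have h2 : (ζ ≫ (k ▷ Q)) ≫ T.star (ζ ≫ (k ▷ Q)) =
        ζ ≫ ((k ≫ T.star k) ▷ Q) ≫ T.star ζ := by
      rw [T.star_comp, hT.star_whiskerRight, comp_whiskerRight]
      simp only [Category.assoc]
    rw [h2, ← hk]
    have h3 : ζ ≫ (((M : ℂ) • 𝟙 _ - H.h (s w) ≫ T.star (H.h (s w))) ▷ Q) ≫ T.star ζ =
        (M : ℂ) • (ζ ≫ T.star ζ) -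
          (ζ ≫ (H.h (s w) ▷ Q)) ≫ T.star (ζ ≫ (H.h (s w) ▷ Q)) := by
      rw [T.star_comp, hT.star_whiskerRight]
      have h4 : ((M : ℂ) • 𝟙 (s a ⊗ s w) - H.h (s w) ≫ T.star (H.h (s w))) ▷ Q =
          (M : ℂ) • 𝟙 _ - (H.h (s w) ▷ Q) ≫ (T.star (H.h (s w)) ▷ Q) := by
        rw [← comp_whiskerRight]
        rw [sub_eq_add_neg, MonoidalPreadditive.add_whiskerRight,
          MonoidalLinear.smul_whiskerRight, id_whiskerRight, sub_eq_add_neg]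
        congr 1
        have h6 : ∀ {X Y : D} (f : X ⟶ Y), (-f) ▷ Q = -(f ▷ Q) := by
          intro X Y f
          have : -f = (-1 : ℂ) • f := by simp
          rw [this, MonoidalLinear.smul_whiskerRight]; simp
        rw [h6, comp_whiskerRight]
      rw [h4, Preadditive.sub_comp, Preadditive.comp_sub]
      simp only [Linear.smul_comp, Linear.comp_smul, Category.id_comp, Category.assoc]
    rw [h3, T.comp_star (hN.scalar d), T.comp_star (hN.scalar d), smul_smul, ← sub_smul]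
    push_cast
    rfl
  have h5 := CStarStructure.real_of_smul (hN.scalar d) h1
  linarith [T.N_nonneg (ζ ≫ (k ▷ Q))]

/-- The bound for all objects. -/
lemma bound_all {M : ℝ}
    (hM : ∀ (y d : Fin n) (ξ : s d ⟶ s a ⊗ s y), T.N (ξ ≫ H.h (s y)) ≤ M * T.N ξ)
    (d : Fin n) (W Q : D) (ζ : s d ⟶ (s a ⊗ W) ⊗ Q) :
    T.N (ζ ≫ (H.h W ▷ Q)) ≤ M * T.N ζ := by
  obtain ⟨J, _, l, p, hp⟩ := hN.decomp W
  have h1 : T.N ζ = ∑ j, T.N (ζ ≫ ((s a ◁ p j) ▷ Q)) := by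
    apply T.parseval (hN.scalar d)
    have : ∀ j, ((s a ◁ p j) ▷ Q) ≫ T.star ((s a ◁ p j) ▷ Q) =
        (s a ◁ (p j ≫ T.star (p j))) ▷ Q := by
      intro j
      rw [hT.star_whiskerRight, hT.star_whiskerLeft]
      simp
    simp_rw [this]
    rw [← sum_whiskerRight, ← whiskerLeft_sum, hp]
    simp
  have h2 : T.N (ζ ≫ (H.h W ▷ Q)) =
      ∑ j, T.N ((ζ ≫ (H.h W ▷ Q)) ≫ ((p j ▷ s a) ▷ Q)) := by
    apply T.parseval (hN.scalar d)
    have : ∀ j, ((p j ▷ s a) ▷ Q) ≫ T.star ((p j ▷ s a) ▷ Q) =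
        ((p j ≫ T.star (p j)) ▷ s a) ▷ Q := by
      intro j
      rw [hT.star_whiskerRight, hT.star_whiskerRight]
      simp
    simp_rw [this]
    rw [← sum_whiskerRight, ← sum_whiskerRight, hp]
    simp
  have h3 : ∀ j, (ζ ≫ (H.h W ▷ Q)) ≫ ((p j ▷ s a) ▷ Q) =
      (ζ ≫ ((s a ◁ p j) ▷ Q)) ≫ (H.h (s (l j)) ▷ Q) := by
    intro j
    rw [Category.assoc, Category.assoc, ← comp_whiskerRight, ← comp_whiskerRight, H.nat]
  rw [h2, h1, Finset.mul_sum]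
  refine Finset.sum_le_sum fun j _ => ?_
  rw [h3]
  exact bound_simple hT hN H hM (l j) d Q _

omit hN in
lemma zeta_star {A Z Zb : D} (r : 𝟙_ D ⟶ Z ⊗ Zb) (hr : r ≫ T.star r = 𝟙 _) :
    zeta A Z Zb r ≫ T.star (zeta A Z Zb r) = 𝟙 A := by
  unfold zeta
  rw [T.star_comp, T.star_comp, hT.star_associator_inv, hT.star_whiskerLeft,
    hT.star_rightUnitor_inv]
  simp only [Category.assoc, Iso.inv_hom_id_assoc]
  rw [← whiskerLeft_comp_assoc, hr]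
  simp

/-- The partial trace of `h h*` is at most one. -/
lemma trace_le_one (z : Fin n) (Zb : D) (r : 𝟙_ D ⟶ s z ⊗ Zb) (hr : r ≫ T.star r = 𝟙 _) :
    T.N (zeta (s a) (s z) Zb r ≫ (H.h (s z) ▷ Zb)) ≤ 1 := by
  obtain ⟨M, hM0, hM, hsup⟩ := exists_bound hT hN H
  have hζ1 : T.N (zeta (s a) (s z) Zb r) = 1 := by
    apply CStarStructure.real_of_smul (hN.scalar a)
    rw [← T.comp_star (hN.scalar a), zeta_star hT r hr]
    simp
  set t := T.N (zeta (s a) (s z) Zb r ≫ (H.h (s z) ▷ Zb)) with ht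
  have ht0 : 0 ≤ t := T.N_nonneg _
  have htM : t ≤ M := by
    have := bound_all hT hN H hM a (s z) Zb (zeta (s a) (s z) Zb r)
    rw [hζ1, mul_one] at this
    exact this
  have hkk : (zeta (s a) (s z) Zb r ≫ (H.h (s z) ▷ Zb)) ≫
      T.star (zeta (s a) (s z) Zb r ≫ (H.h (s z) ▷ Zb)) = (t : ℂ) • 𝟙 _ :=
    T.comp_star (hN.scalar a) _
  have hmain : t * M ≤ M := by
    apply hsup t ht0
    intro y d ξ
    have hu : ((ρ_ (s a ⊗ s y)).inv ≫ ((s a ⊗ s y) ◁ r) ≫ (α_ (s a ⊗ s y) (s z) Zb).inv ≫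
        ((α_ (s a) (s y) (s z)).hom ▷ Zb)) ≫
        T.star ((ρ_ (s a ⊗ s y)).inv ≫ ((s a ⊗ s y) ◁ r) ≫ (α_ (s a ⊗ s y) (s z) Zb).inv ≫
        ((α_ (s a) (s y) (s z)).hom ▷ Zb)) = 𝟙 _ := by
      rw [T.star_comp, T.star_comp, T.star_comp, hT.star_associator_inv, hT.star_whiskerLeft,
        hT.star_rightUnitor_inv, hT.star_whiskerRight, hT.star_associator]
      simp only [Category.assoc, hom_inv_whiskerRight_assoc, Iso.inv_hom_id_assoc]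
      rw [← whiskerLeft_comp_assoc, hr]
      simp
    have h1 := bound_all hT hN H hM d (s y ⊗ s z) Zb (ξ ≫
      ((ρ_ (s a ⊗ s y)).inv ≫ ((s a ⊗ s y) ◁ r) ≫ (α_ (s a ⊗ s y) (s z) Zb).inv ≫
        ((α_ (s a) (s y) (s z)).hom ▷ Zb)))
    rw [T.N_comp_iso (hN.scalar d) ξ _ hu] at h1
    have hv : ((α_ (s y) (s z) (s a)).hom ▷ Zb) ≫ T.star ((α_ (s y) (s z) (s a)).hom ▷ Zb) =
        𝟙 _ := by
      rw [hT.star_whiskerRight, hT.star_associator, hom_inv_whiskerRight]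
    rw [← T.N_comp_iso (hN.scalar d) _ _ hv] at h1
    have h2 : ((ξ ≫ ((ρ_ (s a ⊗ s y)).inv ≫ ((s a ⊗ s y) ◁ r) ≫
        (α_ (s a ⊗ s y) (s z) Zb).inv ≫ ((α_ (s a) (s y) (s z)).hom ▷ Zb))) ≫
        (H.h (s y ⊗ s z) ▷ Zb)) ≫ ((α_ (s y) (s z) (s a)).hom ▷ Zb) =
        ((ξ ≫ H.h (s y)) ≫ (s y ◁ (zeta (s a) (s z) Zb r ≫ (H.h (s z) ▷ Zb)))) ≫
          (α_ (s y) (s z ⊗ s a) Zb).inv := by
      have := key_identity H (s y) (s z) Zb r
      rw [Category.assoc, Category.assoc, this]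
      simp only [Category.assoc]
    rw [h2] at h1
    have hw : (α_ (s y) (s z ⊗ s a) Zb).inv ≫ T.star (α_ (s y) (s z ⊗ s a) Zb).inv = 𝟙 _ := by
      rw [hT.star_associator_inv, Iso.inv_hom_id]
    rw [T.N_comp_iso (hN.scalar d) _ _ hw] at h1
    have hx : (s y ◁ (zeta (s a) (s z) Zb r ≫ (H.h (s z) ▷ Zb))) ≫
        T.star (s y ◁ (zeta (s a) (s z) Zb r ≫ (H.h (s z) ▷ Zb))) = (t : ℂ) • 𝟙 _ := by
      rw [hT.star_whiskerLeft, ← whiskerLeft_comp, hkk, MonoidalLinear.whiskerLeft_smul,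
        whiskerLeft_id]
    rw [T.N_comp_of (hN.scalar d) _ _ t hx] at h1
    exact h1
  rcases hM0.eq_or_lt with h | h
  · rw [← h] at htM; linarith
  · by_contra hcon
    push Not at hcon
    nlinarith

/-- Two half-braidings which are adjoint inverses of each other agree on simple objects. -/
lemma half_eq (H H' : Half (s a)) (hHH : ∀ Y, H.h Y ≫ T.star (H'.h Y) = 𝟙 _) (z : Fin n)
    (Zb : D) (r : 𝟙_ D ⟶ s z ⊗ Zb) (hr : r ≫ T.star r = 𝟙 _) (e : Zb ⊗ s z ⟶ 𝟙_ D)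
    (hz : (r ▷ s z) ≫ (α_ (s z) Zb (s z)).hom ≫ (s z ◁ e) = (λ_ (s z)).hom ≫ (ρ_ (s z)).inv) :
    H.h (s z) = H'.h (s z) := by
  have h1 := trace_le_one hT hN H z Zb r hr
  have h2 := trace_le_one hT hN H' z Zb r hr
  set ζ := zeta (s a) (s z) Zb r with hζ
  have hζζ : ζ ≫ T.star ζ = 𝟙 _ := zeta_star hT r hr
  have hcross : (ζ ≫ (H.h (s z) ▷ Zb)) ≫ T.star (ζ ≫ (H'.h (s z) ▷ Zb)) = 𝟙 _ := by
    rw [T.star_comp, hT.star_whiskerRight]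
    have : (ζ ≫ (H.h (s z) ▷ Zb)) ≫ (T.star (H'.h (s z)) ▷ Zb) ≫ T.star ζ =
        ζ ≫ ((H.h (s z) ≫ T.star (H'.h (s z))) ▷ Zb) ≫ T.star ζ := by
      rw [comp_whiskerRight]; simp only [Category.assoc]
    rw [this, hHH, id_whiskerRight, Category.id_comp, hζζ]
  have hcross' : (ζ ≫ (H'.h (s z) ▷ Zb)) ≫ T.star (ζ ≫ (H.h (s z) ▷ Zb)) = 𝟙 _ := by
    have := congrArg T.star hcross
    rw [T.star_comp, T.star_star, T.star_id] at this
    exact this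
  have h3 : ((T.N (ζ ≫ (H.h (s z) ▷ Zb) - ζ ≫ (H'.h (s z) ▷ Zb)) : ℝ) : ℂ) • 𝟙 (s a) =
      ((T.N (ζ ≫ (H.h (s z) ▷ Zb)) + T.N (ζ ≫ (H'.h (s z) ▷ Zb)) - 2 : ℝ) : ℂ) • 𝟙 (s a) := by
    rw [← T.comp_star (hN.scalar a), T.star_sub, Preadditive.sub_comp, Preadditive.comp_sub,
      Preadditive.comp_sub, hcross, hcross', T.comp_star (hN.scalar a),
      T.comp_star (hN.scalar a)]
    push_cast
    rw [sub_smul, add_smul]
    have : (2 : ℂ) • 𝟙 (s a) = 𝟙 (s a) + 𝟙 (s a) := two_smul _ _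
    rw [this]
    abel
  have h4 := CStarStructure.real_of_smul (hN.scalar a) h3
  have h5 : T.N (ζ ≫ (H.h (s z) ▷ Zb) - ζ ≫ (H'.h (s z) ▷ Zb)) = 0 := by
    apply le_antisymm
    · rw [h4]; linarith
    · exact T.N_nonneg _
  rw [T.N_eq_zero, sub_eq_zero] at h5
  have h6 : ∀ k : s a ⊗ s z ⟶ s z ⊗ s a, k = ((ζ ≫ (k ▷ Zb)) ▷ s z) ≫
      (α_ (s z ⊗ s a) Zb (s z)).hom ≫ ((s z ⊗ s a) ◁ e) ≫ (ρ_ (s z ⊗ s a)).hom := by
    intro k
    conv_lhs => rw [← coherence_b (s a) (s z) Zb _ r e hz k]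
    rw [comp_whiskerRight, Category.assoc]
  rw [h6 (H.h (s z)), h6 (H'.h (s z)), h5]

end Main

end Half

section Braided

variable {D : Type u} [Category.{v} D] [Preadditive D] [Linear ℂ D] [MonoidalCategory D]
  [MonoidalPreadditive D] [MonoidalLinear ℂ D] [BraidedCategory D]

/-- The half-braiding of a braiding. -/
noncomputable def Half.ofBraided (A : D) : Half A where
  h Y := (β_ A Y).hom
  nat _ := BraidedCategory.braiding_naturality_right _ _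
  hex _ _ := BraidedCategory.hexagon_forward _ _ _

variable {T : CStarStructure D} (hT : T.IsTensor)

/-- The adjoint inverse half-braiding. -/
noncomputable def Half.ofBraidedStar (A : D) : Half A where
  h Y := T.star (β_ A Y).inv
  nat {Y Y'} f := by
    have h1 : (T.star f ▷ A) ≫ (β_ A Y).inv = (β_ A Y').inv ≫ (A ◁ T.star f) :=
      BraidedCategory.braiding_inv_naturality_left _ _
    have h2 := congrArg T.star h1
    rw [T.star_comp, T.star_comp, hT.star_whiskerRight, hT.star_whiskerLeft, T.star_star] at h2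
    exact h2.symm
  hex Y Z := by
    have h1 : (α_ Y Z A).inv ≫ (β_ A (Y ⊗ Z)).inv ≫ (α_ A Y Z).inv =
        (Y ◁ (β_ A Z).inv) ≫ (α_ Y A Z).inv ≫ ((β_ A Y).inv ▷ Z) :=
      BraidedCategory.hexagon_forward_inv _ _ _
    have h2 := congrArg T.star h1
    rw [T.star_comp, T.star_comp, T.star_comp, T.star_comp, hT.star_whiskerRight,
      hT.star_whiskerLeft, hT.star_associator_inv, hT.star_associator_inv,
      hT.star_associator_inv] at h2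
    simpa only [Category.assoc] using h2

variable {n : ℕ} {s : Fin n → D} (hN : Nice T s)

/-- Duals of the simple objects. -/
def HasDuals (s : Fin n → D) : Prop :=
  ∀ z, ∃ (Zb : D) (r : 𝟙_ D ⟶ s z ⊗ Zb) (e : Zb ⊗ s z ⟶ 𝟙_ D),
    (r ▷ s z) ≫ (α_ (s z) Zb (s z)).hom ≫ (s z ◁ e) = (λ_ (s z)).hom ≫ (ρ_ (s z)).inv

include hT hN in
/-- The braiding is unitary on simple objects. -/
lemma braiding_unitary_simple (hU : CStarStructure.IsScalar (𝟙_ D)) (hD : HasDuals s)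
    (a z : Fin n) : T.star (β_ (s a) (s z)).hom = (β_ (s a) (s z)).inv := by
  obtain ⟨Zb, r₀, e₀, h₀⟩ := hD z
  have hr0 : r₀ ≠ 0 := by
    rintro rfl
    apply (hN.scalar z).1
    have h1 : (λ_ (s z)).hom ≫ (ρ_ (s z)).inv = 0 := by rw [← h₀]; simp
    calc 𝟙 (s z) = (λ_ (s z)).inv ≫ ((λ_ (s z)).hom ≫ (ρ_ (s z)).inv) ≫ (ρ_ (s z)).hom := by
          simp
      _ = 0 := by rw [h1]; simp
  have hNr : 0 < T.N r₀ := lt_of_le_of_ne (T.N_nonneg _) fun h => hr0 ((T.N_eq_zero _).mp h.symm)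
  set κ : ℝ := (Real.sqrt (T.N r₀))⁻¹ with hκ
  have hκ0 : 0 < κ := inv_pos.mpr (Real.sqrt_pos.mpr hNr)
  have hκc : (κ : ℂ) ≠ 0 := by exact_mod_cast hκ0.ne'
  have hκ2 : κ * κ * T.N r₀ = 1 := by
    rw [hκ, ← mul_inv, Real.mul_self_sqrt hNr.le, inv_mul_cancel₀ hNr.ne']
  have hr : ((κ : ℂ) • r₀) ≫ T.star ((κ : ℂ) • r₀) = 𝟙 _ := by
    rw [T.star_smul, Complex.conj_ofReal, Linear.smul_comp, Linear.comp_smul, T.comp_star hU,
      smul_smul, smul_smul, ← Complex.ofReal_mul, ← Complex.ofReal_mul, hκ2]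
    simp
  have hz : (((κ : ℂ) • r₀) ▷ s z) ≫ (α_ (s z) Zb (s z)).hom ≫ (s z ◁ ((κ : ℂ)⁻¹ • e₀)) =
      (λ_ (s z)).hom ≫ (ρ_ (s z)).inv := by
    rw [MonoidalLinear.smul_whiskerRight, MonoidalLinear.whiskerLeft_smul, Linear.smul_comp,
      Linear.comp_smul, Linear.comp_smul, smul_smul, mul_inv_cancel₀ hκc, one_smul, h₀]
  have h := half_eq hT hN (Half.ofBraided (s a)) (Half.ofBraidedStar hT (s a))
    (by
      intro Y
      change (β_ (s a) Y).hom ≫ T.star (T.star (β_ (s a) Y).inv) = 𝟙 _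
      rw [T.star_star, Iso.hom_inv_id]) z Zb _ hr _ hz
  change (β_ (s a) (s z)).hom = T.star (β_ (s a) (s z)).inv at h
  rw [h, T.star_star]

include hT hN in
/-- The braiding is unitary. -/
theorem braiding_unitary (hU : CStarStructure.IsScalar (𝟙_ D)) (hD : HasDuals s) :
    T.IsBraided := by
  intro X Y
  obtain ⟨J, _, l, p, hp⟩ := hN.decomp X
  obtain ⟨K, _, m, q, hq⟩ := hN.decomp Y
  have h1 : (β_ X Y).hom = ∑ j, ∑ k, (p j ⊗ₘ q k) ≫ (β_ (s (l j)) (s (m k))).hom ≫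
      (T.star (q k) ⊗ₘ T.star (p j)) := by
    have h2 : ∀ j k, (p j ⊗ₘ q k) ≫ (β_ (s (l j)) (s (m k))).hom ≫
        (T.star (q k) ⊗ₘ T.star (p j)) =
        (β_ X Y).hom ≫ ((q k ≫ T.star (q k)) ⊗ₘ (p j ≫ T.star (p j))) := by
      intro j k
      rw [BraidedCategory.braiding_naturality_assoc, tensorHom_comp_tensorHom]
    simp_rw [h2]
    rw [Finset.sum_comm]
    simp_rw [← Preadditive.comp_sum]
    simp_rw [← tensor_sum, hp]
    rw [← sum_tensor, hq]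
    simp
  have h3 : (β_ X Y).inv = ∑ j, ∑ k, (q k ⊗ₘ p j) ≫ (β_ (s (l j)) (s (m k))).inv ≫
      (T.star (p j) ⊗ₘ T.star (q k)) := by
    have h2 : ∀ j k, (q k ⊗ₘ p j) ≫ (β_ (s (l j)) (s (m k))).inv ≫
        (T.star (p j) ⊗ₘ T.star (q k)) =
        (β_ X Y).inv ≫ ((p j ≫ T.star (p j)) ⊗ₘ (q k ≫ T.star (q k))) := by
      intro j k
      rw [BraidedCategory.braiding_inv_naturality_assoc, tensorHom_comp_tensorHom]
    simp_rw [h2]
    simp_rw [← Preadditive.comp_sum]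
    simp_rw [← tensor_sum, hq]
    rw [← sum_tensor, hp]
    simp
  rw [h3]
  conv_lhs => rw [h1]
  simp_rw [T.star_sum]
  refine Finset.sum_congr rfl fun j _ => Finset.sum_congr rfl fun k _ => ?_
  rw [T.star_comp, T.star_comp, hT.star_tensor, hT.star_tensor, T.star_star, T.star_star,
    braiding_unitary_simple hT hN hU hD, Category.assoc]

end Braided

end MP_7857a6_al
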