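import Pool.Agent.MP_7857a6_al.Framed
import Pool.Agent.MP_7857a6_al.Galindo

/-!
# The category of framed objects: simple objects, duals, braiding
-/

open CategoryTheory CategoryTheory.Limits MonoidalCategory

open scoped ComplexConjugate ComplexOrder Matrix

namespace MP_7857a6_al

universe v u

set_option linter.style.haveILetI false
set_option linter.unusedSectionVars false

variable {C : Type u} [Category.{v} C] [Abelian C] [Linear ℂ C] [SemiSimp C] {R : SimpleReps C}

namespace Frame

/-- Positivity criterion. -/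
lemma exists_of_nonneg {X : C} (F : Frame R X) (P : X ⟶ X) (hP : F.star F P = P)
    (h : ∀ (i : Fin R.n) (ξ : R.S i ⟶ X), ∃ r : ℝ, 0 ≤ r ∧
      ξ ≫ P ≫ (simple R i).star F ξ = (r : ℂ) • 𝟙 (R.S i)) :
    ∃ k : X ⟶ X, P = k ≫ F.star F k := by
  have h1 : ∀ i, (F.mat F P i).PosSemidef := by
    intro i
    refine Matrix.PosSemidef.of_dotProduct_mulVec_nonneg ?_ ?_
    · have := F.mat_star F P i
      rw [hP] at this
      exact this.symm
    · intro x
      obtain ⟨r, hr0, hr⟩ := h i (∑ j, conj (x j) • F.inc i j)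
      have h2 : Star.star x ⬝ᵥ (F.mat F P i).mulVec x = (r : ℂ) := by
        have h3 := congrArg (sc R) hr
        rw [map_smul, sc_id, smul_eq_mul, mul_one] at h3
        rw [← h3, star_sum]
        simp_rw [star_smul, star_inc, Preadditive.sum_comp, Preadditive.comp_sum,
          Linear.smul_comp, Linear.comp_smul, map_sum, map_smul, smul_eq_mul, Complex.conj_conj]
        rw [dotProduct]
        refine Finset.sum_congr rfl fun j _ => ?_
        rw [Matrix.mulVec, dotProduct, Finset.mul_sum]
        refine Finset.sum_congr rfl fun k _ => ?_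
        rw [mat_apply]
        simp only [Pi.star_apply, RCLike.star_def]
        ring
      rw [h2]
      exact_mod_cast hr0
  have h4 : ∀ i, ∃ B : Matrix (F.J i) (F.J i) ℂ, F.mat F P i = B * Bᴴ := fun i =>
    exists_mul_conjTranspose _ (h1 i)
  choose B hB using h4
  refine ⟨F.unmat F B, ?_⟩
  apply F.mat_injective F
  funext i
  rw [hB, F.mat_comp F F, mat_star, mat_unmat]

end Frame

variable [MonoidalCategory C] [MonoidalPreadditive C] [MonoidalLinear ℂ C]
variable {g : Gauge R} {U : Frame R (𝟙_ C)}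

namespace Framed

variable (g U) in
/-- The simple objects. -/
noncomputable def simples (a : Fin R.n) : Framed g U := ⟨R.S a, Frame.simple R a⟩

lemma sum_hom {X Y : Framed g U} {ι : Type*} (s : Finset ι) (f : ι → (X ⟶ Y)) :
    (∑ x ∈ s, f x).hom = ∑ x ∈ s, (f x).hom :=
  map_sum (forget g U).mapAddHom f s

variable (g U) in
lemma nice : Nice (cstar g U) (simples g U) where
  scalar a := by
    refine ⟨?_, fun f => ?_⟩
    · intro h
      exact id_ne_zero R a (congrArg Hom.hom h)
    · obtain ⟨z, hz⟩ := exists_scalar R a f.hom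
      exact ⟨z, by ext; exact hz.symm⟩
  decomp X := by
    refine ⟨Σ i, X.frame.J i, inferInstance, fun j => j.1, fun j => ⟨X.frame.prj j.1 j.2⟩, ?_⟩
    ext
    rw [sum_hom, Fintype.sum_sigma]
    have h : ∀ i j, ((⟨X.frame.prj i j⟩ : X ⟶ simples g U i) ≫
        (cstar g U).star (⟨X.frame.prj i j⟩ : X ⟶ simples g U i)).hom =
        X.frame.prj i j ≫ X.frame.inc i j := by
      intro i j
      change X.frame.prj i j ≫ X.frame.star (Frame.simple R i) (X.frame.prj i j) = _
      rw [Frame.star_prj]
    simp_rw [h]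
    exact X.frame.total
  pos X P hP h := by
    obtain ⟨k, hk⟩ := X.frame.exists_of_nonneg P.hom (congrArg Hom.hom hP) (by
      intro i ξ
      obtain ⟨r, hr0, hr⟩ := h i ⟨ξ⟩
      exact ⟨r, hr0, congrArg Hom.hom hr⟩)
    exact ⟨⟨k⟩, by ext; exact hk⟩

lemma isScalar_unit [Simple (𝟙_ C)] : CStarStructure.IsScalar (𝟙_ (Framed g U)) := by
  haveI := SemiSimp.finite_hom (𝟙_ C) (𝟙_ C)
  refine ⟨?_, fun f => ?_⟩
  · intro h
    exact (id_nonzero (𝟙_ C)) (congrArg Hom.hom h)
  · obtain ⟨z, hz⟩ := endomorphism_simple_eq_smul_id ℂ (X := 𝟙_ C) f.hom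
    exact ⟨z, by ext; exact hz.symm⟩

variable (g U) in
lemma hasDuals [RightRigidCategory C] : HasDuals (simples g U) := by
  intro z
  refine ⟨⟨(R.S z)ᘁ, Classical.choice (Frame.nonempty R _)⟩, ⟨η_ (R.S z) (R.S z)ᘁ⟩,
    ⟨ε_ (R.S z) (R.S z)ᘁ⟩, ?_⟩
  ext
  exact ExactPairing.evaluation_coevaluation (R.S z) (R.S z)ᘁ

noncomputable instance [BraidedCategory C] : BraidedCategory (Framed g U) where
  braiding X Y := isoMk (β_ X.obj Y.obj)
  braiding_naturality_right X Y Z f := by
    ext; exact BraidedCategory.braiding_naturality_right _ _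
  braiding_naturality_left f Z := by
    ext; exact BraidedCategory.braiding_naturality_left _ _
  hexagon_forward X Y Z := by ext; exact BraidedCategory.hexagon_forward _ _ _
  hexagon_reverse X Y Z := by ext; exact BraidedCategory.hexagon_reverse _ _ _

noncomputable instance [BraidedCategory C] : (forget g U).Braided where
  braided X Y := by
    change 𝟙 (X.obj ⊗ Y.obj) ≫ (β_ X.obj Y.obj).hom = (β_ X.obj Y.obj).hom ≫ 𝟙 (Y.obj ⊗ X.obj)
    simp

end Framed

end MP_7857a6_al
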