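import Pool.Agent.MP_7857a6_al.Ortho

/-!
# A unitary fusion category has a gauge with unitary F-matrices
-/

open CategoryTheory CategoryTheory.Limits MonoidalCategory

open scoped ComplexConjugate ComplexOrder Matrix

namespace MP_7857a6_al

universe v u w

set_option linter.style.haveILetI false
set_option linter.unusedSectionVars false

open Functor.LaxMonoidal Functor.OplaxMonoidal Functor.Monoidal

variable {C : Type u} [Category.{v} C] [Abelian C] [Linear ℂ C]
variable [MonoidalCategory C] [MonoidalPreadditive C] [MonoidalLinear ℂ C] [RigidCategory C]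
variable [FusionCategory C] (R : SimpleReps C)

section

variable {D : Type w} [Category.{v} D] [Preadditive D] [Linear ℂ D] [MonoidalCategory D]
  [MonoidalPreadditive D] [MonoidalLinear ℂ D] (F : D ⥤ C) [F.Monoidal] [F.IsEquivalence]
  [F.Additive] [F.Linear ℂ]

/-- preimages of the simple objects -/
noncomputable abbrev pre (a : Fin R.n) : D := F.objPreimage (R.S a)

/-- the isomorphisms -/
noncomputable abbrev preIso (a : Fin R.n) : F.obj (pre R F a) ≅ R.S a :=
  F.objObjPreimageIso (R.S a)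

lemma pre_scalar (a : Fin R.n) : CStarStructure.IsScalar (pre R F a) := by
  refine ⟨fun h => ?_, fun f => ?_⟩
  · apply id_ne_zero R a
    have h1 : 𝟙 (F.obj (pre R F a)) = 0 := by
      rw [← F.map_id, h, F.map_zero]
    calc 𝟙 (R.S a) = (preIso R F a).inv ≫ 𝟙 _ ≫ (preIso R F a).hom := by simp
      _ = 0 := by rw [h1]; simp
  · obtain ⟨z, hz⟩ := exists_scalar R a ((preIso R F a).inv ≫ F.map f ≫ (preIso R F a).hom)
    refine ⟨z, F.map_injective ?_⟩
    rw [F.map_smul, F.map_id]
    calc F.map f = (preIso R F a).hom ≫ ((preIso R F a).inv ≫ F.map f ≫ (preIso R F a).hom) ≫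
          (preIso R F a).inv := by simp
      _ = _ := by rw [← hz]; simp

lemma pre_hom_zero (a b : Fin R.n) (h : a ≠ b) (f : pre R F a ⟶ pre R F b) : f = 0 := by
  apply F.map_injective
  rw [F.map_zero]
  have h1 := hom_eq_zero R h ((preIso R F a).inv ≫ F.map f ≫ (preIso R F b).hom)
  calc F.map f = (preIso R F a).hom ≫ ((preIso R F a).inv ≫ F.map f ≫ (preIso R F b).hom) ≫
        (preIso R F b).inv := by simp
    _ = 0 := by rw [h1]; simp

lemma pre_dec (X : D) : ∃ (J : Type) (_ : Fintype J) (l : J → Fin R.n)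
    (i : ∀ j, pre R F (l j) ⟶ X) (p : ∀ j, X ⟶ pre R F (l j)), ∑ j, p j ≫ i j = 𝟙 X := by
  obtain ⟨K⟩ := Frame.nonempty R (F.obj X)
  refine ⟨Σ i, K.J i, inferInstance, fun j => j.1,
    fun j => F.preimage ((preIso R F j.1).hom ≫ K.inc j.1 j.2),
    fun j => F.preimage (K.prj j.1 j.2 ≫ (preIso R F j.1).inv), ?_⟩
  apply F.map_injective
  rw [F.map_sum, F.map_id, ← K.total, Fintype.sum_sigma]
  refine Finset.sum_congr rfl fun i _ => Finset.sum_congr rfl fun j _ => ?_
  simp

/-- The transport of Hom spaces. -/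
noncomputable def homTransport {c : Fin R.n} {X : D} {Z : C} (e : F.obj X ≅ Z) :
    (pre R F c ⟶ X) ≃ₗ[ℂ] (R.S c ⟶ Z) :=
  (LinearEquiv.ofBijective (F.mapLinearMap ℂ)
    (⟨F.map_injective, F.map_surjective⟩ : Function.Bijective (F.mapLinearMap ℂ :
      (pre R F c ⟶ X) →ₗ[ℂ] _))).trans (Linear.homCongr ℂ (preIso R F c) e)

lemma homTransport_apply {c : Fin R.n} {X : D} {Z : C} (e : F.obj X ≅ Z) (x : pre R F c ⟶ X) :
    homTransport R F e x = (preIso R F c).inv ≫ F.map x ≫ e.hom := by
  unfold homTransport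
  simp [Linear.homCongr_apply]

/-- the isomorphism for `a ⊗ b` -/
noncomputable def preTensor (a b : Fin R.n) :
    F.obj (pre R F a ⊗ pre R F b) ≅ R.S a ⊗ R.S b :=
  (μIso F _ _).symm ≪≫ (preIso R F a ⊗ᵢ preIso R F b)

lemma preTensor_hom (a b : Fin R.n) :
    (preTensor R F a b).hom = δ F _ _ ≫ ((preIso R F a).hom ⊗ₘ (preIso R F b).hom) := by
  simp [preTensor]

/-- structure map of the left trees -/
noncomputable def strL (a b c : Fin R.n) :
    F.obj ((pre R F a ⊗ pre R F b) ⊗ pre R F c) ⟶ (R.S a ⊗ R.S b) ⊗ R.S c :=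
  δ F _ _ ≫ ((preTensor R F a b).hom ⊗ₘ (preIso R F c).hom)

/-- structure map of the right trees -/
noncomputable def strR (a b c : Fin R.n) :
    F.obj (pre R F a ⊗ (pre R F b ⊗ pre R F c)) ⟶ R.S a ⊗ (R.S b ⊗ R.S c) :=
  δ F _ _ ≫ ((preIso R F a).hom ⊗ₘ (preTensor R F b c).hom)

lemma str_assoc (a b c : Fin R.n) :
    strL R F a b c ≫ (α_ (R.S a) (R.S b) (R.S c)).hom =
      F.map (α_ _ _ _).hom ≫ strR R F a b c := by
  unfold strL strR
  rw [preTensor_hom, preTensor_hom]
  have h1 : ((δ F (pre R F a) (pre R F b) ≫ ((preIso R F a).hom ⊗ₘ (preIso R F b).hom)) ⊗ₘ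
      (preIso R F c).hom) = (δ F (pre R F a) (pre R F b) ▷ F.obj (pre R F c)) ≫
      (((preIso R F a).hom ⊗ₘ (preIso R F b).hom) ⊗ₘ (preIso R F c).hom) := by
    rw [← tensorHom_id, tensorHom_comp_tensorHom, Category.id_comp]
  have h2 : ((preIso R F a).hom ⊗ₘ
      (δ F (pre R F b) (pre R F c) ≫ ((preIso R F b).hom ⊗ₘ (preIso R F c).hom))) =
      (F.obj (pre R F a) ◁ δ F (pre R F b) (pre R F c)) ≫
      ((preIso R F a).hom ⊗ₘ ((preIso R F b).hom ⊗ₘ (preIso R F c).hom)) := by
    rw [← id_tensorHom, tensorHom_comp_tensorHom, Category.id_comp]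
  rw [h1, h2]
  simp only [Category.assoc]
  rw [associator_naturality, Functor.OplaxMonoidal.associativity_assoc]

end

/-- A unitary fusion category has a gauge with unitary F-matrices. -/
theorem exists_unitaryF_of_isUnitaryMonoidal (h : IsUnitaryMonoidal C) :
    ∃ g : Gauge R, g.UnitaryF := by
  obtain ⟨D, _, _, _, _, _, _, T, F, _, hT, _, _, _⟩ := h
  have hs := pre_scalar R F
  have hne := pre_hom_zero R F
  have hfin : ∀ (c : Fin R.n) (X : D), FiniteDimensional ℂ (pre R F c ⟶ X) := by
    intro c X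
    haveI := FusionCategory.finite_hom (R.S c) (F.obj X)
    exact LinearEquiv.finiteDimensional (homTransport R F (Iso.refl (F.obj X))).symm
  have hb : ∀ a b c, ∃ (N : ℕ) (v : Module.Basis (Fin N) ℂ
      (pre R F c ⟶ pre R F a ⊗ pre R F b)),
      ∀ m m', v m ≫ T.star (v m') = if m = m' then 𝟙 _ else 0 :=
    fun a b c => T.exists_orthonormal (hs c) (hfin c _)
  choose N v hv using hb
  set w : ∀ a b c, Fin (N a b c) → (pre R F c ⟶ pre R F a ⊗ pre R F b) :=
    fun a b c m => v a b c m with hw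
  have hwt : ∀ a b, ∑ c, ∑ m, T.star (w a b c m) ≫ w a b c m = 𝟙 _ := fun a b =>
    T.total_of_basis hne (pre_dec R F _) (N a b) (v a b) (hv a b)
  let g : Gauge R :=
    { mult := N
      basis := fun a b c => (v a b c).map (homTransport R F (preTensor R F a b)) }
  have hgb : ∀ a b c m, g.basis a b c m =
      (preIso R F c).inv ≫ F.map (w a b c m) ≫ (preTensor R F a b).hom := by
    intro a b c m
    change ((v a b c).map (homTransport R F (preTensor R F a b))) m = _
    rw [Module.Basis.map_apply, homTransport_apply]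
  have hL : ∀ a b c d t, g.treeL a b c d t =
      (preIso R F d).inv ≫ F.map (CStarStructure.tL N w a b c d t) ≫ strL R F a b c := by
    intro a b c d t
    unfold Gauge.treeL CStarStructure.tL strL
    rw [hgb, hgb, preTensor_hom, F.map_comp]
    simp only [Category.assoc]
    congr 2
    rw [← tensorHom_id, tensorHom_comp_tensorHom, Category.comp_id,
      Iso.hom_inv_id_assoc]
    have h1 : (F.map (w a b t.1 t.2.1) ≫ (preTensor R F a b).hom ⊗ₘ (preIso R F c).hom) =
        (F.map (w a b t.1 t.2.1) ▷ F.obj (pre R F c)) ≫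
          ((preTensor R F a b).hom ⊗ₘ (preIso R F c).hom) := by
      rw [← tensorHom_id, tensorHom_comp_tensorHom, Category.id_comp]
    rw [h1, δ_natural_left_assoc]
  have hR : ∀ a b c d t, g.treeR a b c d t =
      (preIso R F d).inv ≫ F.map (CStarStructure.tR N w a b c d t) ≫ strR R F a b c := by
    intro a b c d t
    unfold Gauge.treeR CStarStructure.tR strR
    rw [hgb, hgb, preTensor_hom, F.map_comp]
    simp only [Category.assoc]
    congr 2
    rw [← id_tensorHom, tensorHom_comp_tensorHom, Category.comp_id,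
      Iso.hom_inv_id_assoc]
    have h1 : ((preIso R F a).hom ⊗ₘ F.map (w b c t.1 t.2.1) ≫ (preTensor R F b c).hom) =
        (F.obj (pre R F a) ◁ F.map (w b c t.1 t.2.1)) ≫
          ((preIso R F a).hom ⊗ₘ (preTensor R F b c).hom) := by
      rw [← id_tensorHom, tensorHom_comp_tensorHom, Category.id_comp]
    rw [h1, δ_natural_right_assoc]
  refine ⟨g, fun a b c d => ?_⟩
  obtain ⟨M, hM, hM1, hM2⟩ := CStarStructure.exists_F hT N w (fun a b c => hv a b c) hwt hs hne
    a b c d
  refine ⟨M, ?_, hM1, hM2⟩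
  intro t
  rw [hL, Category.assoc, Category.assoc, str_assoc, ← F.map_comp_assoc, hM t, F.map_sum,
    Preadditive.sum_comp, Preadditive.comp_sum]
  refine Finset.sum_congr rfl fun r _ => ?_
  rw [F.map_smul, Linear.smul_comp, Linear.comp_smul, hR]

end MP_7857a6_al
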