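import Mathlib

/-!
# Fusion categories, gauges, F-matrices, C*-tensor structures: definitions
-/

open CategoryTheory CategoryTheory.Limits MonoidalCategory

open scoped ComplexConjugate Matrix

namespace MP_7857a6_al

universe v u

attribute [local instance] Abelian.hasFiniteBiproducts

/-- A fusion category over `ℂ`: an abelian `ℂ`-linear rigid monoidal category (with bilinear
tensor product) whose Hom spaces are finite-dimensional, in which every object is a finite
direct sum of simple objects, with finitely many simple objects up to isomorphism, and with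
simple unit object. -/
class FusionCategory (C : Type u) [Category.{v} C] [Abelian C] [Linear ℂ C]
    [MonoidalCategory C] [MonoidalPreadditive C] [MonoidalLinear ℂ C] [RigidCategory C] :
    Prop where
  finite_hom : ∀ X Y : C, FiniteDimensional ℂ (X ⟶ Y)
  semisimple : ∀ X : C, ∃ (n : ℕ) (T : Fin n → C), (∀ k, Simple (T k)) ∧ Nonempty (X ≅ ⨁ T)
  finite_simples : ∃ (n : ℕ) (T : Fin n → C), ∀ X : C, Simple X → ∃ k, Nonempty (X ≅ T k)
  simple_unit : Simple (𝟙_ C)

/-- Representatives of the isomorphism classes of simple objects. -/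
structure SimpleReps (C : Type u) [Category.{v} C] [Abelian C] where
  /-- the number of simple objects -/
  n : ℕ
  /-- the representatives -/
  S : Fin n → C
  simple : ∀ a, Simple (S a)
  distinct : ∀ a b, Nonempty (S a ≅ S b) → a = b
  complete : ∀ X : C, Simple X → ∃ a, Nonempty (X ≅ S a)

section Gauge

variable {C : Type u} [Category.{v} C] [Abelian C] [Linear ℂ C] [MonoidalCategory C]

/-- A gauge: a basis of every space `V^{ab}_c = Hom(c, a ⊗ b)`, `a, b, c` simple. -/
structure Gauge (R : SimpleReps C) where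
  /-- the fusion multiplicities -/
  mult : Fin R.n → Fin R.n → Fin R.n → ℕ
  /-- the chosen bases -/
  basis : ∀ a b c, Module.Basis (Fin (mult a b c)) ℂ (R.S c ⟶ R.S a ⊗ R.S b)

variable {R : SimpleReps C} (g : Gauge R)

/-- Index set of the product basis of `⨁_e V^{ab}_e ⊗ V^{ec}_d`. -/
abbrev Gauge.LIdx (a b c d : Fin R.n) : Type :=
  Σ e : Fin R.n, Fin (g.mult a b e) × Fin (g.mult e c d)

/-- Index set of the product basis of `⨁_f V^{bc}_f ⊗ V^{af}_d`. -/
abbrev Gauge.RIdx (a b c d : Fin R.n) : Type :=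
  Σ f : Fin R.n, Fin (g.mult b c f) × Fin (g.mult a f d)

/-- The product basis vector `v ⊗ w ∈ V^{ab}_e ⊗ V^{ec}_d`, as a morphism
`d ⟶ e ⊗ c ⟶ (a ⊗ b) ⊗ c`. -/
noncomputable def Gauge.treeL (a b c d : Fin R.n) (t : g.LIdx a b c d) :
    R.S d ⟶ (R.S a ⊗ R.S b) ⊗ R.S c :=
  g.basis t.1 c d t.2.2 ≫ (g.basis a b t.1 t.2.1 ▷ R.S c)

/-- The product basis vector `v ⊗ w ∈ V^{bc}_f ⊗ V^{af}_d`, as a morphism
`d ⟶ a ⊗ f ⟶ a ⊗ (b ⊗ c)`. -/
noncomputable def Gauge.treeR (a b c d : Fin R.n) (s : g.RIdx a b c d) :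
    R.S d ⟶ R.S a ⊗ (R.S b ⊗ R.S c) :=
  g.basis a s.1 d s.2.2 ≫ (R.S a ◁ g.basis b c s.1 s.2.1)

/-- `M` is the F-matrix `F^{abc}_d` in the gauge `g`: the matrix, in the product bases, of the
map `⨁_e V^{ab}_e ⊗ V^{ec}_d ⟶ ⨁_f V^{bc}_f ⊗ V^{af}_d` induced by the associator
`(a ⊗ b) ⊗ c ≅ a ⊗ (b ⊗ c)`. -/
def Gauge.IsFMatrix (a b c d : Fin R.n) (M : Matrix (g.RIdx a b c d) (g.LIdx a b c d) ℂ) :
    Prop :=
  ∀ t, g.treeL a b c d t ≫ (α_ (R.S a) (R.S b) (R.S c)).hom = ∑ s, M s t • g.treeR a b c d s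

/-- All F-matrices are unitary in the gauge `g`. -/
def Gauge.UnitaryF : Prop :=
  ∀ a b c d, ∃ M : Matrix (g.RIdx a b c d) (g.LIdx a b c d) ℂ,
    g.IsFMatrix a b c d M ∧ Mᴴ * M = 1 ∧ M * Mᴴ = 1

/-- `M` is the matrix of the map `R^{ab}_c : V^{ab}_c ⟶ V^{ba}_c` given by composition with the
braiding, in the gauge `g`. -/
def Gauge.IsRMatrix [BraidedCategory C] (a b c : Fin R.n)
    (M : Matrix (Fin (g.mult b a c)) (Fin (g.mult a b c)) ℂ) : Prop :=
  ∀ m, g.basis a b c m ≫ (β_ (R.S a) (R.S b)).hom = ∑ m', M m' m • g.basis b a c m'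

/-- All braiding matrices are unitary in the gauge `g`. -/
def Gauge.UnitaryR [BraidedCategory C] : Prop :=
  ∀ a b c, ∃ M : Matrix (Fin (g.mult b a c)) (Fin (g.mult a b c)) ℂ,
    g.IsRMatrix a b c M ∧ Mᴴ * M = 1 ∧ M * Mᴴ = 1

end Gauge

section CStar

/-- A C*-structure on a `ℂ`-linear category: a conjugate-linear contravariant involution,
identity on objects, and complete norms on the Hom spaces, with `‖f ≫ g‖ ≤ ‖f‖ ‖g‖`,
`‖f* f‖ = ‖f‖²` and `f* f` positive in the C*-algebra `End X` for every `f : X ⟶ Y`. -/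
structure CStarStructure (D : Type u) [Category.{v} D] [Preadditive D] [Linear ℂ D] where
  /-- the involution -/
  star : ∀ {X Y : D}, (X ⟶ Y) → (Y ⟶ X)
  star_star : ∀ {X Y : D} (f : X ⟶ Y), star (star f) = f
  star_add : ∀ {X Y : D} (f g : X ⟶ Y), star (f + g) = star f + star g
  star_smul : ∀ {X Y : D} (z : ℂ) (f : X ⟶ Y), star (z • f) = conj z • star f
  star_comp : ∀ {X Y Z : D} (f : X ⟶ Y) (g : Y ⟶ Z), star (f ≫ g) = star g ≫ star f
  /-- the norms -/
  norm : ∀ {X Y : D}, (X ⟶ Y) → ℝ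
  norm_nonneg : ∀ {X Y : D} (f : X ⟶ Y), 0 ≤ norm f
  norm_eq_zero : ∀ {X Y : D} (f : X ⟶ Y), norm f = 0 ↔ f = 0
  norm_add_le : ∀ {X Y : D} (f g : X ⟶ Y), norm (f + g) ≤ norm f + norm g
  norm_smul : ∀ {X Y : D} (z : ℂ) (f : X ⟶ Y), norm (z • f) = ‖z‖ * norm f
  norm_comp_le : ∀ {X Y Z : D} (f : X ⟶ Y) (g : Y ⟶ Z), norm (f ≫ g) ≤ norm f * norm g
  norm_cstar : ∀ {X Y : D} (f : X ⟶ Y), norm (f ≫ star f) = norm f ^ 2
  complete : ∀ {X Y : D} (f : ℕ → (X ⟶ Y)),
    (∀ ε > 0, ∃ N, ∀ p ≥ N, ∀ q ≥ N, norm (f p - f q) < ε) →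
      ∃ h : X ⟶ Y, ∀ ε > 0, ∃ N, ∀ p ≥ N, norm (f p - h) < ε
  positive : ∀ {X Y : D} (f : X ⟶ Y), ∃ h : X ⟶ X, f ≫ star f = h ≫ star h

/-- A C*-structure on a monoidal category is a C*-tensor structure if the tensor product is
compatible with the involution and the associator and the unit constraints are unitary. -/
structure CStarStructure.IsTensor {D : Type u} [Category.{v} D] [Preadditive D] [Linear ℂ D]
    [MonoidalCategory D] (T : CStarStructure D) : Prop where
  star_tensor : ∀ {X₁ Y₁ X₂ Y₂ : D} (f : X₁ ⟶ Y₁) (g : X₂ ⟶ Y₂),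
    T.star (f ⊗ₘ g) = T.star f ⊗ₘ T.star g
  star_associator : ∀ X Y Z : D, T.star (α_ X Y Z).hom = (α_ X Y Z).inv
  star_leftUnitor : ∀ X : D, T.star (λ_ X).hom = (λ_ X).inv
  star_rightUnitor : ∀ X : D, T.star (ρ_ X).hom = (ρ_ X).inv

/-- The braiding is unitary. -/
def CStarStructure.IsBraided {D : Type u} [Category.{v} D] [Preadditive D] [Linear ℂ D]
    [MonoidalCategory D] [BraidedCategory D] (T : CStarStructure D) : Prop :=
  ∀ X Y : D, T.star (β_ X Y).hom = (β_ X Y).inv

/-- A (`ℂ`-linear monoidal) category is *unitary* if it is monoidally equivalent, by a linear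
functor, to a C*-tensor category: a `ℂ`-linear monoidal category with a C*-structure for which
the tensor product is a *-functor and the associator and the unit constraints are unitary. -/
def IsUnitaryMonoidal (C : Type u) [Category.{v} C] [Preadditive C] [Linear ℂ C]
    [MonoidalCategory C] : Prop :=
  ∃ (D : Type (max u v 1)) (_ : Category.{v} D) (_ : Preadditive D) (_ : Linear ℂ D)
    (_ : MonoidalCategory D) (_ : MonoidalPreadditive D) (_ : MonoidalLinear ℂ D)
    (T : CStarStructure D) (F : D ⥤ C) (_ : F.Monoidal),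
    T.IsTensor ∧ F.IsEquivalence ∧ F.Additive ∧ F.Linear ℂ

/-- A (`ℂ`-linear) braided monoidal category is *unitary* if it is equivalent, by a linear
braided monoidal functor, to a C*-tensor category with unitary braiding. -/
def IsUnitaryBraided (C : Type u) [Category.{v} C] [Preadditive C] [Linear ℂ C]
    [MonoidalCategory C] [BraidedCategory C] : Prop :=
  ∃ (D : Type (max u v 1)) (_ : Category.{v} D) (_ : Preadditive D) (_ : Linear ℂ D)
    (_ : MonoidalCategory D) (_ : MonoidalPreadditive D) (_ : MonoidalLinear ℂ D)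
    (_ : BraidedCategory D) (T : CStarStructure D) (F : D ⥤ C) (_ : F.Braided),
    T.IsTensor ∧ T.IsBraided ∧ F.IsEquivalence ∧ F.Additive ∧ F.Linear ℂ

end CStar

end MP_7857a6_al
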