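import Pool.Agent.MP_7857a6_al.Converse

/-!
# Sanity checks: representatives exist, the F-matrix exists and is unique
-/

open CategoryTheory CategoryTheory.Limits MonoidalCategory

open scoped ComplexConjugate Matrix

namespace MP_7857a6_al

universe v u

set_option linter.style.haveILetI false
set_option linter.unusedSectionVars false

variable {C : Type u} [Category.{v} C] [Abelian C] [Linear ℂ C]
variable [MonoidalCategory C] [MonoidalPreadditive C] [MonoidalLinear ℂ C]

section

variable [SemiSimp C] {R : SimpleReps C} (g : Gauge R)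

lemma Gauge.treeR_cotreeR (a b c d : Fin R.n) (t t' : g.RIdx a b c d) :
    g.treeR a b c d t ≫ g.cotreeR a b c d t' = if t = t' then 𝟙 _ else 0 := by
  obtain ⟨e, m, m'⟩ := t
  obtain ⟨e', k, k'⟩ := t'
  have h0 : g.treeR a b c d ⟨e, m, m'⟩ ≫ g.cotreeR a b c d ⟨e', k, k'⟩ =
      g.basis a e d m' ≫ (R.S a ◁ (g.basis b c e m ≫ g.dual b c e' k)) ≫ g.dual a e' d k' := by
    unfold Gauge.treeR Gauge.cotreeR
    simp
  rw [h0]
  by_cases he : e = e'
  · subst he
    rw [g.basis_dual]
    by_cases hk : m = k
    · subst hk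
      simp [g.basis_dual]
    · simp [hk]
  · rw [hom_eq_zero R he (g.basis b c e m ≫ g.dual b c e' k)]
    simp [he]

/-- The F-matrix exists and is unique. -/
theorem Gauge.existsUnique_FMatrix (a b c d : Fin R.n) :
    ∃! M : Matrix (g.RIdx a b c d) (g.LIdx a b c d) ℂ, g.IsFMatrix a b c d M := by
  have hco : ∀ (x : R.S d ⟶ R.S a ⊗ (R.S b ⊗ R.S c)),
      x = ∑ s, sc R (x ≫ g.cotreeR a b c d s) • g.treeR a b c d s := by
    intro x
    conv_lhs => rw [← Category.comp_id x, ← g.total_cotreeR]
    rw [Preadditive.comp_sum, Finset.sum_eq_single d]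
    · rw [Preadditive.comp_sum]
      refine Finset.sum_congr rfl fun j _ => ?_
      rw [← Category.assoc]
      conv_lhs => rw [← sc_smul_id R (x ≫ g.cotreeR a b c d j)]
      simp
    · intro b' _ hb
      rw [Preadditive.comp_sum]
      refine Finset.sum_eq_zero fun j _ => ?_
      rw [← Category.assoc, hom_eq_zero R (Ne.symm hb) (x ≫ g.cotreeR a b c b' j), zero_comp]
    · simp
  refine ⟨fun s t => sc R ((g.treeL a b c d t ≫ (α_ (R.S a) (R.S b) (R.S c)).hom) ≫
    g.cotreeR a b c d s), ?_, ?_⟩
  · intro t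
    exact hco _
  · intro M hM
    ext s t
    have h1 := hM t
    have h2 : (g.treeL a b c d t ≫ (α_ (R.S a) (R.S b) (R.S c)).hom) ≫ g.cotreeR a b c d s =
        M s t • 𝟙 _ := by
      rw [h1, Preadditive.sum_comp, Finset.sum_eq_single s]
      · rw [Linear.smul_comp, g.treeR_cotreeR, if_pos rfl]
      · intro s' _ hs'
        rw [Linear.smul_comp, g.treeR_cotreeR, if_neg hs', smul_zero]
      · simp
    change M s t = sc R ((g.treeL a b c d t ≫ (α_ (R.S a) (R.S b) (R.S c)).hom) ≫
      g.cotreeR a b c d s)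
    rw [h2]
    simp

end

/-- Every fusion category has a system of representatives of the simple objects. -/
theorem nonempty_simpleReps [RigidCategory C] [FusionCategory C] : Nonempty (SimpleReps C) := by
  classical
  obtain ⟨n, T, hT⟩ := FusionCategory.finite_simples (C := C)
  -- indices of simple objects, one for each isomorphism class
  let P : Finset (Fin n) := Finset.univ.filter fun k =>
    Simple (T k) ∧ ∀ j < k, ¬ Nonempty (T j ≅ T k)
  let e : Fin P.card ≃ P := (P.equivFin).symm
  refine ⟨⟨P.card, fun a => T (e a).1, ?_, ?_, ?_⟩⟩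
  · intro a
    exact (Finset.mem_filter.mp (e a).2).2.1
  · intro a b ⟨i⟩
    have ha := (Finset.mem_filter.mp (e a).2).2.2
    have hb := (Finset.mem_filter.mp (e b).2).2.2
    have h : (e a).1 = (e b).1 := by
      rcases lt_trichotomy (e a).1 (e b).1 with h | h | h
      · exact absurd ⟨i⟩ (hb _ h)
      · exact h
      · exact absurd ⟨i.symm⟩ (ha _ h)
    exact e.injective (Subtype.ext h)
  · intro X hX
    have hne : (Finset.univ.filter fun k => Nonempty (X ≅ T k)).Nonempty := by
      obtain ⟨k, hk⟩ := hT X hX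
      exact ⟨k, by simp [hk]⟩
    let k := (Finset.univ.filter fun k => Nonempty (X ≅ T k)).min' hne
    have hk : Nonempty (X ≅ T k) := by
      have := Finset.min'_mem _ hne
      exact (Finset.mem_filter.mp this).2
    have hkP : k ∈ P := by
      rw [Finset.mem_filter]
      refine ⟨Finset.mem_univ _, ?_, ?_⟩
      · obtain ⟨i⟩ := hk
        exact Simple.of_iso i.symm
      · intro j hj ⟨i⟩
        obtain ⟨i'⟩ := hk
        have : k ≤ j := Finset.min'_le _ _
          (Finset.mem_filter.mpr ⟨Finset.mem_univ _, ⟨i' ≪≫ i.symm⟩⟩)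
        exact absurd hj (not_lt.mpr this)
    refine ⟨e.symm ⟨k, hkP⟩, ?_⟩
    rw [Equiv.apply_symm_apply]
    exact hk

end MP_7857a6_al
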