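import Pool.Agent.MP_7857a6_al.BraidedFramed

/-!
# From unitary F-matrices to C*-tensor structures
-/

open CategoryTheory CategoryTheory.Limits MonoidalCategory

open scoped ComplexConjugate ComplexOrder Matrix

namespace MP_7857a6_al

universe v u

set_option linter.style.haveILetI false
set_option linter.unusedSectionVars false

variable {C : Type u} [Category.{v} C] [Abelian C] [Linear ℂ C]
variable [MonoidalCategory C] [MonoidalPreadditive C] [MonoidalLinear ℂ C] [RigidCategory C]
variable [FusionCategory C] {R : SimpleReps C}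

instance : SemiSimp C where
  finite_hom := FusionCategory.finite_hom
  semisimple := FusionCategory.semisimple

/-- Unitary F-matrices imply unitarity. -/
theorem isUnitaryMonoidal_of_unitaryF (g : Gauge R) (hg : g.UnitaryF) :
    IsUnitaryMonoidal C := by
  haveI : Simple (𝟙_ C) := FusionCategory.simple_unit
  obtain ⟨U, hl, hr⟩ := exists_unit_frame hg
  exact ⟨Framed g U, inferInstance, inferInstance, inferInstance, inferInstance, inferInstance,
    inferInstance, Framed.cstar g U, Framed.forget g U, inferInstance,
    Framed.cstar_isTensor hg hl hr, inferInstance, inferInstance, inferInstance⟩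

/-- Unitary F-matrices imply unitarity, braided version. -/
theorem isUnitaryBraided_of_unitaryF [BraidedCategory C] (g : Gauge R) (hg : g.UnitaryF) :
    IsUnitaryBraided C := by
  haveI : Simple (𝟙_ C) := FusionCategory.simple_unit
  obtain ⟨U, hl, hr⟩ := exists_unit_frame hg
  exact ⟨Framed g U, inferInstance, inferInstance, inferInstance, inferInstance, inferInstance,
    inferInstance, inferInstance, Framed.cstar g U, Framed.forget g U, inferInstance,
    Framed.cstar_isTensor hg hl hr,
    braiding_unitary (Framed.cstar_isTensor hg hl hr) (Framed.nice g U) Framed.isScalar_unit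
      (Framed.hasDuals g U), inferInstance, inferInstance, inferInstance⟩

/-- In a gauge with unitary F-matrices, all braiding matrices are unitary. -/
theorem unitaryR_of_unitaryF [BraidedCategory C] (g : Gauge R) (hg : g.UnitaryF) :
    g.UnitaryR := by
  haveI : Simple (𝟙_ C) := FusionCategory.simple_unit
  obtain ⟨U, hl, hr⟩ := exists_unit_frame hg
  have hB := braiding_unitary (Framed.cstar_isTensor hg hl hr) (Framed.nice g U)
    Framed.isScalar_unit (Framed.hasDuals g U)
  intro a b c
  have hab : ((Frame.simple R a).tensor g (Frame.simple R b)).star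
      ((Frame.simple R b).tensor g (Frame.simple R a)) (β_ (R.S a) (R.S b)).hom =
      (β_ (R.S a) (R.S b)).inv :=
    congrArg Framed.Hom.hom (hB (Framed.simples g U a) (Framed.simples g U b))
  -- the adjoint of a matrix coefficient
  have hsc : ∀ f : R.S c ⟶ R.S c,
      sc R ((Frame.simple R c).star (Frame.simple R c) f) = conj (sc R f) := by
    intro f
    conv_lhs => rw [← sc_smul_id R f]
    rw [Frame.star_smul, Frame.star_id, map_smul, sc_id, smul_eq_mul, mul_one]
  have hdual : ∀ (a b : Fin R.n) (m : Fin (g.mult a b c)),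
      ((Frame.simple R a).tensor g (Frame.simple R b)).star (Frame.simple R c)
        (g.dual a b c m) = g.basis a b c m := by
    intro a b m
    rw [← Frame.star_basis, Frame.star_star]
  have hcoef : ∀ (m : Fin (g.mult a b c)) (m' : Fin (g.mult b a c)),
      conj (sc R (g.basis a b c m ≫ (β_ (R.S a) (R.S b)).hom ≫ g.dual b a c m')) =
        sc R (g.basis b a c m' ≫ (β_ (R.S a) (R.S b)).inv ≫ g.dual a b c m) := by
    intro m m'
    rw [← hsc, Frame.star_comp _ ((Frame.simple R a).tensor g (Frame.simple R b)) _,
      Frame.star_comp _ ((Frame.simple R b).tensor g (Frame.simple R a)) _, hab, hdual,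
      Frame.star_basis, Category.assoc]
  obtain ⟨M, hM⟩ : ∃ M : Fin (g.mult b a c) → Fin (g.mult a b c) → ℂ, ∀ m' m,
      M m' m = sc R (g.basis a b c m ≫ (β_ (R.S a) (R.S b)).hom ≫ g.dual b a c m') :=
    ⟨_, fun _ _ => rfl⟩
  have e1 : ∀ (a b : Fin R.n) {x : R.S c ⟶ R.S a ⊗ R.S b},
      x = ∑ m, sc R (x ≫ g.dual a b c m) • g.basis a b c m := by
    intro a b x
    exact (g.frame a b).expand x
  refine ⟨Matrix.of M, ?_, ?_, ?_⟩
  · intro m
    rw [e1 b a (x := g.basis a b c m ≫ (β_ (R.S a) (R.S b)).hom)]
    refine Finset.sum_congr rfl fun m' _ => ?_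
    rw [Matrix.of_apply, hM, Category.assoc]
  · ext m₁ m
    rw [Matrix.mul_apply, Matrix.one_apply]
    simp only [Matrix.conjTranspose_apply, Matrix.of_apply]
    have h1 : g.basis a b c m ≫ g.dual a b c m₁ = if m = m₁ then 𝟙 _ else 0 :=
      g.basis_dual a b c m m₁
    have h2 : sc R (g.basis a b c m ≫ g.dual a b c m₁) =
        ∑ m', Star.star (M m' m₁) * M m' m := by
      have h3 : g.basis a b c m = (g.basis a b c m ≫ (β_ (R.S a) (R.S b)).hom) ≫
          (β_ (R.S a) (R.S b)).inv := by simp
      have h4 : g.basis a b c m ≫ g.dual a b c m₁ =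
          (∑ m', M m' m • g.basis b a c m') ≫ (β_ (R.S a) (R.S b)).inv ≫ g.dual a b c m₁ := by
        conv_lhs => rw [h3, e1 b a (x := g.basis a b c m ≫ (β_ (R.S a) (R.S b)).hom)]
        simp only [hM, Category.assoc]
      rw [h4, Preadditive.sum_comp, map_sum]
      refine Finset.sum_congr rfl fun m' _ => ?_
      rw [Linear.smul_comp, map_smul, ← hcoef, ← hM, smul_eq_mul, mul_comm]
      rfl
    rw [← h2, h1]
    rcases eq_or_ne m₁ m with rfl | h
    · simp
    · simp [h, h.symm]
  · ext m₁ m
    rw [Matrix.mul_apply, Matrix.one_apply]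
    simp only [Matrix.conjTranspose_apply, Matrix.of_apply]
    have h1 : g.basis b a c m ≫ g.dual b a c m₁ = if m = m₁ then 𝟙 _ else 0 :=
      g.basis_dual b a c m m₁
    have h2 : sc R (g.basis b a c m ≫ g.dual b a c m₁) =
        ∑ m', M m₁ m' * Star.star (M m m') := by
      have h3 : g.basis b a c m = (g.basis b a c m ≫ (β_ (R.S a) (R.S b)).inv) ≫
          (β_ (R.S a) (R.S b)).hom := by simp
      have h4 : g.basis b a c m ≫ g.dual b a c m₁ =
          (∑ m', conj (M m m') • g.basis a b c m') ≫ (β_ (R.S a) (R.S b)).hom ≫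
            g.dual b a c m₁ := by
        conv_lhs => rw [h3, e1 a b (x := g.basis b a c m ≫ (β_ (R.S a) (R.S b)).inv)]
        simp only [hM, hcoef, Category.assoc]
      rw [h4, Preadditive.sum_comp, map_sum]
      refine Finset.sum_congr rfl fun m' _ => ?_
      rw [Linear.smul_comp, map_smul, ← hM, smul_eq_mul, mul_comm]
      rfl
    rw [← h2, h1]
    rcases eq_or_ne m₁ m with rfl | h
    · simp
    · simp [h, h.symm]

end MP_7857a6_al
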