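import Pool.Agent.MP_7857a6_al.Defs

/-!
# Schur scalars and frames
-/

open CategoryTheory CategoryTheory.Limits MonoidalCategory

open scoped ComplexConjugate Matrix

namespace MP_7857a6_al

universe v u

set_option linter.style.haveILetI false
set_option linter.unusedSectionVars false

attribute [local instance] Abelian.hasFiniteBiproducts

variable {C : Type u} [Category.{v} C] [Abelian C] [Linear ℂ C]

/-- finite-dimensional Homs, semisimplicity (auxiliary form of the hypotheses). -/
class SemiSimp (C : Type u) [Category.{v} C] [Abelian C] [Linear ℂ C] : Prop where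
  finite_hom : ∀ X Y : C, FiniteDimensional ℂ (X ⟶ Y)
  semisimple : ∀ X : C, ∃ (n : ℕ) (T : Fin n → C), (∀ k, Simple (T k)) ∧ Nonempty (X ≅ ⨁ T)

section Schur

variable [SemiSimp C] (R : SimpleReps C)

lemma exists_scalar (a : Fin R.n) (f : R.S a ⟶ R.S a) : ∃ z : ℂ, z • 𝟙 (R.S a) = f := by
  haveI := R.simple a
  haveI := SemiSimp.finite_hom (R.S a) (R.S a)
  exact endomorphism_simple_eq_smul_id ℂ f

lemma id_ne_zero (a : Fin R.n) : 𝟙 (R.S a) ≠ 0 := by
  haveI := R.simple a
  exact id_nonzero _

/-- Scalars of endomorphisms of simple objects. -/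
noncomputable def sc {a : Fin R.n} : (R.S a ⟶ R.S a) →ₗ[ℂ] ℂ :=
  (LinearEquiv.ofBijective (LinearMap.toSpanSingleton ℂ (R.S a ⟶ R.S a) (𝟙 (R.S a)))
    ⟨by
      intro x y h
      simp only [LinearMap.toSpanSingleton_apply] at h
      have h2 : (x - y) • 𝟙 (R.S a) = 0 := by rw [sub_smul, h, sub_self]
      rcases smul_eq_zero.mp h2 with h3 | h3
      · exact sub_eq_zero.mp h3
      · exact absurd h3 (id_ne_zero R a), fun f => exists_scalar R a f⟩).symm.toLinearMap

@[simp] lemma sc_id (a : Fin R.n) : sc R (𝟙 (R.S a)) = 1 := by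
  unfold sc
  rw [LinearEquiv.coe_coe, LinearEquiv.symm_apply_eq]
  simp

lemma sc_smul_id {a : Fin R.n} (f : R.S a ⟶ R.S a) : sc R f • 𝟙 (R.S a) = f := by
  obtain ⟨z, rfl⟩ := exists_scalar R a f
  simp

lemma sc_comp {a : Fin R.n} (f g : R.S a ⟶ R.S a) : sc R (f ≫ g) = sc R f * sc R g := by
  obtain ⟨z, rfl⟩ := exists_scalar R a f
  obtain ⟨w, rfl⟩ := exists_scalar R a g
  simp [mul_comm]

lemma hom_eq_zero {a b : Fin R.n} (h : a ≠ b) (f : R.S a ⟶ R.S b) : f = 0 := by
  haveI := R.simple a
  haveI := R.simple b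
  by_contra hf
  haveI := isIso_of_hom_simple hf
  exact h (R.distinct a b ⟨asIso f⟩)

end Schur

/-- A frame of an object: a decomposition into a finite direct sum of simple objects. -/
structure Frame (R : SimpleReps C) (X : C) where
  /-- index sets -/
  J : Fin R.n → Type
  /-- finiteness -/
  ft : ∀ i, Fintype (J i)
  /-- decidability -/
  de : ∀ i, DecidableEq (J i)
  /-- inclusions -/
  inc : ∀ i, J i → (R.S i ⟶ X)
  /-- projections -/
  prj : ∀ i, J i → (X ⟶ R.S i)
  inc_prj : ∀ i j j', inc i j ≫ prj i j' = if j = j' then 𝟙 _ else 0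
  total : ∑ i, ∑ j, prj i j ≫ inc i j = 𝟙 X

attribute [instance] Frame.ft Frame.de

namespace Frame

variable {R : SimpleReps C}

/-- The frame of a simple object. -/
noncomputable def simple (R : SimpleReps C) (a : Fin R.n) : Frame R (R.S a) where
  J i := PLift (i = a)
  ft i := inferInstance
  de i := inferInstance
  inc i h := eqToHom (by rw [h.down])
  prj i h := eqToHom (by rw [h.down])
  inc_prj i j j' := by
    obtain ⟨rfl⟩ := j
    rw [if_pos (Subsingleton.elim _ _)]
    simp
  total := by
    rw [Finset.sum_eq_single a]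
    · rw [Fintype.sum_eq_single (PLift.up rfl)]
      · simp
      · intro j hj; exact absurd (Subsingleton.elim _ _) hj
    · intro b _ hb
      apply Fintype.sum_eq_zero
      intro j; exact absurd j.down hb
    · simp

/-- Frames transport along isomorphisms. -/
noncomputable def ofIso {X Y : C} (F : Frame R X) (e : X ≅ Y) : Frame R Y where
  J := F.J
  ft := F.ft
  de := F.de
  inc i j := F.inc i j ≫ e.hom
  prj i j := e.inv ≫ F.prj i j
  inc_prj i j j' := by
    rw [Category.assoc, Iso.hom_inv_id_assoc, F.inc_prj]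
  total := by
    have h : ∀ i j, (e.inv ≫ F.prj i j) ≫ F.inc i j ≫ e.hom =
        e.inv ≫ (F.prj i j ≫ F.inc i j) ≫ e.hom := by intros; simp
    simp_rw [h]
    simp_rw [← Preadditive.comp_sum, ← Preadditive.sum_comp]
    rw [F.total]; simp

variable [SemiSimp C]

lemma inc_prj_ne {X : C} (F : Frame R X) {i i' : Fin R.n} (h : i ≠ i') (j : F.J i)
    (j' : F.J i') : F.inc i j ≫ F.prj i' j' = 0 := hom_eq_zero R h _

/-- The frame of a finite biproduct. -/
noncomputable def biprod {n : ℕ} (T : Fin n → C) (F : ∀ k, Frame R (T k)) :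
    Frame R (⨁ T) where
  J i := Σ k, (F k).J i
  ft i := inferInstance
  de i := inferInstance
  inc i j := (F j.1).inc i j.2 ≫ biproduct.ι T j.1
  prj i j := biproduct.π T j.1 ≫ (F j.1).prj i j.2
  inc_prj i j j' := by
    obtain ⟨k, j⟩ := j
    obtain ⟨k', j'⟩ := j'
    by_cases h : k = k'
    · subst h
      simp [(F k).inc_prj]
    · simp [biproduct.ι_π_ne_assoc _ h, h]
  total := by
    simp_rw [Fintype.sum_sigma]
    rw [Finset.sum_comm]
    have h : ∀ k, ∑ i, ∑ j : (F k).J i, (biproduct.π T k ≫ (F k).prj i j) ≫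
        (F k).inc i j ≫ biproduct.ι T k = biproduct.π T k ≫ biproduct.ι T k := by
      intro k
      have h2 : ∀ i j, (biproduct.π T k ≫ (F k).prj i j) ≫ (F k).inc i j ≫ biproduct.ι T k =
        biproduct.π T k ≫ ((F k).prj i j ≫ (F k).inc i j) ≫ biproduct.ι T k := by
        intros; simp
      simp_rw [h2, ← Preadditive.comp_sum, ← Preadditive.sum_comp]
      rw [(F k).total]; simp
    simp_rw [h]
    exact biproduct.total

lemma nonempty_of_simple (X : C) [hX : Simple X] : Nonempty (Frame R X) := by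
  obtain ⟨a, ⟨e⟩⟩ := R.complete X hX
  exact ⟨(simple R a).ofIso e.symm⟩

variable (R) in
lemma nonempty (X : C) : Nonempty (Frame R X) := by
  obtain ⟨n, T, hT, ⟨e⟩⟩ := SemiSimp.semisimple X
  have h : ∀ k, Nonempty (Frame R (T k)) := fun k => by
    haveI := hT k
    exact nonempty_of_simple (T k)
  exact ⟨(biprod T fun k => Classical.choice (h k)).ofIso e.symm⟩

end Frame

end MP_7857a6_al
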