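import Pool.Agent.MP_7857a6_al.Mat

/-!
# The C*-norm
-/

open CategoryTheory CategoryTheory.Limits MonoidalCategory

open scoped ComplexConjugate ComplexOrder Matrix Matrix.Norms.L2Operator MatrixOrder

namespace MP_7857a6_al

universe v u

set_option linter.style.haveILetI false
set_option linter.unusedSectionVars false

variable {C : Type u} [Category.{v} C] [Abelian C] [Linear ℂ C] [SemiSimp C] {R : SimpleReps C}

/-- positive semidefinite matrices are of the form `B * Bᴴ`. -/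
lemma exists_mul_conjTranspose {n : Type*} [Fintype n] [DecidableEq n] (A : Matrix n n ℂ)
    (hA : A.PosSemidef) : ∃ B : Matrix n n ℂ, A = B * Bᴴ := by
  obtain ⟨B, hB⟩ := CStarAlgebra.nonneg_iff_eq_star_mul_self.mp hA.nonneg
  refine ⟨Bᴴ, ?_⟩
  rw [hB, Matrix.star_eq_conjTranspose, Matrix.conjTranspose_conjTranspose]

namespace Frame

variable {X Y Z : C} (F : Frame R X) (G : Frame R Y) (H : Frame R Z)

/-- The C*-norm of a morphism with respect to frames. -/
noncomputable def nrm (f : X ⟶ Y) : ℝ := ‖F.mat G f‖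

lemma nrm_nonneg (f : X ⟶ Y) : 0 ≤ F.nrm G f := norm_nonneg _

lemma nrm_eq_zero (f : X ⟶ Y) : F.nrm G f = 0 ↔ f = 0 := by
  unfold nrm
  rw [norm_eq_zero]
  constructor
  · intro h
    apply F.mat_injective G
    rw [h, mat_zero]
  · rintro rfl
    rw [mat_zero]

lemma nrm_add_le (f g : X ⟶ Y) : F.nrm G (f + g) ≤ F.nrm G f + F.nrm G g := by
  unfold nrm
  rw [mat_add]
  exact norm_add_le _ _

lemma nrm_smul (z : ℂ) (f : X ⟶ Y) : F.nrm G (z • f) = ‖z‖ * F.nrm G f := by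
  unfold nrm
  rw [mat_smul]
  exact norm_smul _ _

lemma nrm_comp_le (f : X ⟶ Y) (g : Y ⟶ Z) :
    F.nrm H (f ≫ g) ≤ F.nrm G f * G.nrm H g := by
  unfold nrm
  rw [pi_norm_le_iff_of_nonneg (mul_nonneg (norm_nonneg _) (norm_nonneg _))]
  intro i
  rw [F.mat_comp G H]
  exact (Matrix.l2_opNorm_mul _ _).trans (mul_le_mul (norm_le_pi_norm _ i) (norm_le_pi_norm _ i)
    (norm_nonneg _) (norm_nonneg _))

lemma nrm_cstar (f : X ⟶ Y) : F.nrm F (f ≫ F.star G f) = F.nrm G f ^ 2 := by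
  have key : ∀ i, ‖F.mat F (f ≫ F.star G f) i‖ = ‖F.mat G f i‖ ^ 2 := by
    intro i
    rw [F.mat_comp G F, mat_star]
    have h := Matrix.l2_opNorm_conjTranspose_mul_self (F.mat G f i)ᴴ
    rw [Matrix.conjTranspose_conjTranspose, Matrix.l2_opNorm_conjTranspose] at h
    rw [h, sq]
  unfold nrm
  apply le_antisymm
  · rw [pi_norm_le_iff_of_nonneg (by positivity)]
    intro i
    rw [key]
    exact pow_le_pow_left₀ (norm_nonneg _) (norm_le_pi_norm _ i) 2
  · have h : ‖F.mat G f‖ ≤ Real.sqrt ‖F.mat F (f ≫ F.star G f)‖ := by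
      rw [pi_norm_le_iff_of_nonneg (Real.sqrt_nonneg _)]
      intro i
      apply Real.le_sqrt_of_sq_le
      rw [← key]
      exact norm_le_pi_norm _ i
    calc ‖F.mat G f‖ ^ 2 ≤ (Real.sqrt ‖F.mat F (f ≫ F.star G f)‖) ^ 2 :=
          pow_le_pow_left₀ (norm_nonneg _) h 2
      _ = _ := Real.sq_sqrt (norm_nonneg _)

lemma nrm_complete (f : ℕ → (X ⟶ Y))
    (hf : ∀ ε > 0, ∃ N, ∀ p ≥ N, ∀ q ≥ N, F.nrm G (f p - f q) < ε) :
    ∃ h : X ⟶ Y, ∀ ε > 0, ∃ N, ∀ p ≥ N, F.nrm G (f p - h) < ε := by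
  have hsub : ∀ a b : X ⟶ Y, F.mat G (a - b) = F.mat G a - F.mat G b := by
    intro a b
    have : a - b = a + (-1 : ℂ) • b := by simp [sub_eq_add_neg]
    rw [this, mat_add, mat_smul]
    simp [sub_eq_add_neg]
  haveI : CompleteSpace (∀ i, Matrix (F.J i) (G.J i) ℂ) := FiniteDimensional.complete ℂ _
  have hc : CauchySeq fun p => F.mat G (f p) := by
    rw [Metric.cauchySeq_iff]
    intro ε hε
    obtain ⟨N, hN⟩ := hf ε hε
    refine ⟨N, fun p hp q hq => ?_⟩
    rw [dist_eq_norm, ← hsub]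
    exact hN p hp q hq
  obtain ⟨m, hm⟩ := cauchySeq_tendsto_of_complete hc
  refine ⟨F.unmat G m, fun ε hε => ?_⟩
  rw [Metric.tendsto_atTop] at hm
  obtain ⟨N, hN⟩ := hm ε hε
  refine ⟨N, fun p hp => ?_⟩
  have := hN p hp
  rw [dist_eq_norm] at this
  unfold nrm
  rw [hsub, mat_unmat]
  exact this

lemma exists_positive (f : X ⟶ Y) : ∃ h : X ⟶ X, f ≫ F.star G f = h ≫ F.star F h := by
  have h1 : ∀ i, ∃ B : Matrix (F.J i) (F.J i) ℂ, F.mat F (f ≫ F.star G f) i = B * Bᴴ := by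
    intro i
    apply exists_mul_conjTranspose
    rw [F.mat_comp G F, mat_star]
    exact Matrix.posSemidef_self_mul_conjTranspose _
  choose B hB using h1
  refine ⟨F.unmat F B, ?_⟩
  apply F.mat_injective F
  funext i
  rw [hB, F.mat_comp F F, mat_star, mat_unmat]

end Frame

end MP_7857a6_al
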