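import Pool.Agent.MP_7857a6_al.UnitFrame
import Pool.Agent.MP_7857a6_al.Norm

/-!
# The category of framed objects and its C*-tensor structure
-/

open CategoryTheory CategoryTheory.Limits MonoidalCategory

open scoped ComplexConjugate Matrix

namespace MP_7857a6_al

universe v u

set_option linter.style.haveILetI false
set_option linter.unusedSectionVars false

variable {C : Type u} [Category.{v} C] [Abelian C] [Linear ℂ C] [SemiSimp C] {R : SimpleReps C}
variable [MonoidalCategory C] [MonoidalPreadditive C] [MonoidalLinear ℂ C]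

/-- Objects of `C` with a frame. The parameters `g` and `U` are used for the monoidal
structure. -/
structure Framed (g : Gauge R) (U : Frame R (𝟙_ C)) where
  /-- the underlying object -/
  obj : C
  /-- the frame -/
  frame : Frame R obj

variable {g : Gauge R} {U : Frame R (𝟙_ C)}

namespace Framed

/-- Morphisms of framed objects: all morphisms. -/
@[ext]
structure Hom (X Y : Framed g U) where
  /-- the underlying morphism -/
  hom : X.obj ⟶ Y.obj

@[simps id_hom comp_hom]
instance : Category.{v} (Framed g U) where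
  Hom X Y := Hom X Y
  id X := ⟨𝟙 X.obj⟩
  comp f h := ⟨f.hom ≫ h.hom⟩

@[ext]
lemma hom_ext {X Y : Framed g U} {f h : X ⟶ Y} (e : f.hom = h.hom) : f = h := Hom.ext e

/-- Equivalence of homs. -/
def homEquiv {X Y : Framed g U} : (X ⟶ Y) ≃ (X.obj ⟶ Y.obj) where
  toFun f := f.hom
  invFun f := ⟨f⟩
  left_inv _ := rfl
  right_inv _ := rfl

instance : Preadditive (Framed g U) where
  homGroup X Y := homEquiv.addCommGroup
  add_comp _ _ _ _ _ _ := by ext; apply Preadditive.add_comp
  comp_add _ _ _ _ _ _ := by ext; apply Preadditive.comp_add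

instance : Linear ℂ (Framed g U) where
  homModule X Y := Equiv.module ℂ homEquiv
  smul_comp _ _ _ _ _ _ := by ext; apply Linear.smul_comp
  comp_smul _ _ _ _ _ _ := by ext; apply Linear.comp_smul

@[simp] lemma add_hom {X Y : Framed g U} (f h : X ⟶ Y) : (f + h).hom = f.hom + h.hom := rfl
@[simp] lemma zero_hom {X Y : Framed g U} : (0 : X ⟶ Y).hom = 0 := rfl
@[simp] lemma smul_hom {X Y : Framed g U} (z : ℂ) (f : X ⟶ Y) : (z • f).hom = z • f.hom := rfl
@[simp] lemma sub_hom {X Y : Framed g U} (f h : X ⟶ Y) : (f - h).hom = f.hom - h.hom := rfl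

/-- Isomorphisms of framed objects. -/
@[simps]
def isoMk {X Y : Framed g U} (e : X.obj ≅ Y.obj) : X ≅ Y where
  hom := ⟨e.hom⟩
  inv := ⟨e.inv⟩

noncomputable instance : MonoidalCategoryStruct (Framed g U) where
  tensorObj X Y := ⟨X.obj ⊗ Y.obj, X.frame.tensor g Y.frame⟩
  tensorUnit := ⟨𝟙_ C, U⟩
  whiskerLeft X _ _ f := ⟨X.obj ◁ f.hom⟩
  whiskerRight f Y := ⟨f.hom ▷ Y.obj⟩
  tensorHom f h := ⟨f.hom ⊗ₘ h.hom⟩
  associator X Y Z := isoMk (α_ X.obj Y.obj Z.obj)
  leftUnitor X := isoMk (λ_ X.obj)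
  rightUnitor X := isoMk (ρ_ X.obj)

@[simp] lemma tensor_obj (X Y : Framed g U) : (X ⊗ Y).obj = X.obj ⊗ Y.obj := rfl
@[simp] lemma unit_obj : (𝟙_ (Framed g U)).obj = 𝟙_ C := rfl
@[simp] lemma whiskerLeft_hom (X : Framed g U) {Y Z : Framed g U} (f : Y ⟶ Z) :
    (X ◁ f).hom = X.obj ◁ f.hom := rfl
@[simp] lemma whiskerRight_hom {Y Z : Framed g U} (f : Y ⟶ Z) (X : Framed g U) :
    (f ▷ X).hom = f.hom ▷ X.obj := rfl
@[simp] lemma tensorHom_hom {X Y Z W : Framed g U} (f : X ⟶ Y) (h : Z ⟶ W) :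
    (f ⊗ₘ h).hom = f.hom ⊗ₘ h.hom := rfl
@[simp] lemma associator_hom_hom (X Y Z : Framed g U) :
    (α_ X Y Z).hom.hom = (α_ X.obj Y.obj Z.obj).hom := rfl
@[simp] lemma associator_inv_hom (X Y Z : Framed g U) :
    (α_ X Y Z).inv.hom = (α_ X.obj Y.obj Z.obj).inv := rfl
@[simp] lemma leftUnitor_hom_hom (X : Framed g U) : (λ_ X).hom.hom = (λ_ X.obj).hom := rfl
@[simp] lemma leftUnitor_inv_hom (X : Framed g U) : (λ_ X).inv.hom = (λ_ X.obj).inv := rfl
@[simp] lemma rightUnitor_hom_hom (X : Framed g U) : (ρ_ X).hom.hom = (ρ_ X.obj).hom := rfl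
@[simp] lemma rightUnitor_inv_hom (X : Framed g U) : (ρ_ X).inv.hom = (ρ_ X.obj).inv := rfl

noncomputable instance : MonoidalCategory (Framed g U) where
  tensorHom_def f h := by ext; simp [MonoidalCategory.tensorHom_def]
  id_tensorHom_id X Y := by ext; simp
  tensorHom_comp_tensorHom f₁ f₂ g₁ g₂ := by ext; simp
  whiskerLeft_id X Y := by ext; simp
  id_whiskerRight X Y := by ext; simp
  associator_naturality f₁ f₂ f₃ := by ext; simp
  leftUnitor_naturality f := by ext; simp
  rightUnitor_naturality f := by ext; simp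
  pentagon W X Y Z := by ext; simp
  triangle X Y := by ext; simp

instance : MonoidalPreadditive (Framed g U) where
  whiskerLeft_zero := by intros; ext; simp
  zero_whiskerRight := by intros; ext; simp
  whiskerLeft_add := by intros; ext; simp
  add_whiskerRight := by intros; ext; simp

instance : MonoidalLinear ℂ (Framed g U) where
  whiskerLeft_smul := by intros; ext; simp
  smul_whiskerRight := by intros; ext; simp

variable (g U) in
/-- The forgetful functor. -/
@[simps]
def forget : Framed g U ⥤ C where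
  obj X := X.obj
  map f := f.hom

instance : (forget g U).Faithful where
  map_injective h := hom_ext h

instance : (forget g U).Full where
  map_surjective f := ⟨⟨f⟩, rfl⟩

instance : (forget g U).EssSurj where
  mem_essImage X := ⟨⟨X, Classical.choice (Frame.nonempty R X)⟩, ⟨Iso.refl X⟩⟩

instance : (forget g U).IsEquivalence where

instance : (forget g U).Additive where
  map_add := rfl

instance : (forget g U).Linear ℂ where
  map_smul _ _ := rfl

/-- The forgetful functor is (strictly) monoidal. -/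
noncomputable instance : (forget g U).Monoidal :=
  Functor.CoreMonoidal.toMonoidal
    { εIso := Iso.refl _
      μIso := fun _ _ => Iso.refl _
      μIso_hom_natural_left := fun {X Y} f X' => by
        change f.hom ▷ X'.obj ≫ 𝟙 (Y.obj ⊗ X'.obj) = 𝟙 (X.obj ⊗ X'.obj) ≫ f.hom ▷ X'.obj
        simp
      μIso_hom_natural_right := fun {X Y} X' f => by
        change X'.obj ◁ f.hom ≫ 𝟙 (X'.obj ⊗ Y.obj) = 𝟙 (X'.obj ⊗ X.obj) ≫ X'.obj ◁ f.hom
        simp
      associativity := fun X Y Z => by
        change 𝟙 (X.obj ⊗ Y.obj) ▷ Z.obj ≫ 𝟙 ((X.obj ⊗ Y.obj) ⊗ Z.obj) ≫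
          (α_ X.obj Y.obj Z.obj).hom = (α_ X.obj Y.obj Z.obj).hom ≫
          X.obj ◁ 𝟙 (Y.obj ⊗ Z.obj) ≫ 𝟙 (X.obj ⊗ Y.obj ⊗ Z.obj)
        simp
      left_unitality := fun X => by
        change (λ_ X.obj).hom = 𝟙 (𝟙_ C) ▷ X.obj ≫ 𝟙 (𝟙_ C ⊗ X.obj) ≫ (λ_ X.obj).hom
        simp
      right_unitality := fun X => by
        change (ρ_ X.obj).hom = X.obj ◁ 𝟙 (𝟙_ C) ≫ 𝟙 (X.obj ⊗ 𝟙_ C) ≫ (ρ_ X.obj).hom
        simp }

variable (g U) in
/-- The C*-structure on the category of framed objects. -/
noncomputable def cstar : CStarStructure (Framed g U) where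
  star {X Y} f := ⟨X.frame.star Y.frame f.hom⟩
  star_star f := by ext; exact Frame.star_star _ _ _
  star_add f h := by ext; exact Frame.star_add _ _ _ _
  star_smul z f := by ext; exact Frame.star_smul _ _ _ _
  star_comp {X Y Z} f h := by ext; exact Frame.star_comp X.frame Y.frame Z.frame _ _
  norm {X Y} f := X.frame.nrm Y.frame f.hom
  norm_nonneg f := Frame.nrm_nonneg _ _ _
  norm_eq_zero {X Y} f := by
    rw [Frame.nrm_eq_zero]
    constructor
    · intro h; ext; exact h
    · rintro rfl; rfl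
  norm_add_le f h := Frame.nrm_add_le _ _ _ _
  norm_smul z f := Frame.nrm_smul _ _ _ _
  norm_comp_le {X Y Z} f h := Frame.nrm_comp_le X.frame Y.frame Z.frame _ _
  norm_cstar {X Y} f := Frame.nrm_cstar X.frame Y.frame _
  complete {X Y} f hf := by
    obtain ⟨h, hh⟩ := Frame.nrm_complete X.frame Y.frame (fun n => (f n).hom) hf
    exact ⟨⟨h⟩, hh⟩
  positive {X Y} f := by
    obtain ⟨h, hh⟩ := Frame.exists_positive X.frame Y.frame f.hom
    exact ⟨⟨h⟩, by ext; exact hh⟩

lemma cstar_isTensor (hg : g.UnitaryF)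
    (hl : ∀ {X : C} (F : Frame R X), (U.tensor g F).star F (λ_ X).hom = (λ_ X).inv)
    (hr : ∀ {X : C} (F : Frame R X), (F.tensor g U).star F (ρ_ X).hom = (ρ_ X).inv) :
    (cstar g U).IsTensor where
  star_tensor {X₁ Y₁ X₂ Y₂} f h := by
    ext; exact Frame.star_tensor g X₁.frame Y₁.frame X₂.frame Y₂.frame f.hom h.hom
  star_associator X Y Z := by ext; exact Frame.star_assoc hg X.frame Y.frame Z.frame
  star_leftUnitor X := by ext; exact hl X.frame
  star_rightUnitor X := by ext; exact hr X.frame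

end Framed

end MP_7857a6_al
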