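import Pool.Agent.MP_7857a6_al.Frame

/-!
# Matrices of morphisms with respect to frames, the star operation
-/

open CategoryTheory CategoryTheory.Limits MonoidalCategory

open scoped ComplexConjugate Matrix

namespace MP_7857a6_al

universe v u

set_option linter.style.haveILetI false
set_option linter.unusedSectionVars false

variable {C : Type u} [Category.{v} C] [Abelian C] [Linear ℂ C] [SemiSimp C] {R : SimpleReps C}

namespace Frame

variable {X Y Z : C} (F : Frame R X) (G : Frame R Y) (H : Frame R Z)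

/-- A morphism from a simple object, expanded in a frame. -/
lemma expand {c : Fin R.n} (x : R.S c ⟶ X) :
    x = ∑ j, sc R (x ≫ F.prj c j) • F.inc c j := by
  conv_lhs => rw [← Category.comp_id x, ← F.total]
  rw [Preadditive.comp_sum, Finset.sum_eq_single c]
  · rw [Preadditive.comp_sum]
    refine Finset.sum_congr rfl fun j _ => ?_
    rw [← Category.assoc]
    conv_lhs => rw [← sc_smul_id R (x ≫ F.prj c j)]
    simp
  · intro b _ hb
    rw [Preadditive.comp_sum]
    refine Finset.sum_eq_zero fun j _ => ?_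
    rw [← Category.assoc, hom_eq_zero R (Ne.symm hb) (x ≫ F.prj b j), zero_comp]
  · simp

/-- A morphism to a simple object, expanded in a frame. -/
lemma coexpand {c : Fin R.n} (x : X ⟶ R.S c) :
    x = ∑ j, sc R (F.inc c j ≫ x) • F.prj c j := by
  conv_lhs => rw [← Category.id_comp x, ← F.total]
  rw [Preadditive.sum_comp, Finset.sum_eq_single c]
  · rw [Preadditive.sum_comp]
    refine Finset.sum_congr rfl fun j _ => ?_
    rw [Category.assoc]
    conv_lhs => rw [← sc_smul_id R (F.inc c j ≫ x)]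
    simp
  · intro b _ hb
    rw [Preadditive.sum_comp]
    refine Finset.sum_eq_zero fun j _ => ?_
    rw [Category.assoc, hom_eq_zero R hb (F.inc b j ≫ x), comp_zero]
  · simp

/-- The matrix of a morphism. -/
noncomputable def mat (f : X ⟶ Y) (i : Fin R.n) : Matrix (F.J i) (G.J i) ℂ :=
  fun j k => sc R (F.inc i j ≫ f ≫ G.prj i k)

lemma mat_apply (f : X ⟶ Y) (i : Fin R.n) (j : F.J i) (k : G.J i) :
    F.mat G f i j k = sc R (F.inc i j ≫ f ≫ G.prj i k) := rfl

lemma mat_add (f g : X ⟶ Y) : F.mat G (f + g) = F.mat G f + F.mat G g := by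
  funext i; ext j k; simp [mat_apply]

lemma mat_smul (z : ℂ) (f : X ⟶ Y) : F.mat G (z • f) = z • F.mat G f := by
  funext i; ext j k; simp [mat_apply]

lemma mat_zero : F.mat G (0 : X ⟶ Y) = 0 := by
  funext i; ext j k; simp [mat_apply]

/-- The morphism with given matrix. -/
noncomputable def unmat (m : ∀ i, Matrix (F.J i) (G.J i) ℂ) : X ⟶ Y :=
  ∑ i, ∑ j, ∑ k, m i j k • (F.prj i j ≫ G.inc i k)

lemma unmat_mat (f : X ⟶ Y) : F.unmat G (F.mat G f) = f := by
  have h : f = (∑ i, ∑ j, F.prj i j ≫ F.inc i j) ≫ f := by rw [F.total, Category.id_comp]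
  conv_rhs => rw [h]
  rw [Preadditive.sum_comp]
  unfold unmat
  refine Finset.sum_congr rfl fun i _ => ?_
  rw [Preadditive.sum_comp]
  refine Finset.sum_congr rfl fun j _ => ?_
  rw [Category.assoc, G.expand (F.inc i j ≫ f), Preadditive.comp_sum]
  refine Finset.sum_congr rfl fun k _ => ?_
  rw [mat_apply, Linear.comp_smul]
  simp only [Category.assoc]

lemma mat_unmat (m : ∀ i, Matrix (F.J i) (G.J i) ℂ) : F.mat G (F.unmat G m) = m := by
  funext i; ext j k
  rw [mat_apply]
  unfold unmat
  simp only [Preadditive.comp_sum, Preadditive.sum_comp, Linear.smul_comp, Linear.comp_smul,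
    Category.assoc, map_sum, map_smul]
  rw [Finset.sum_eq_single i]
  · have h : ∀ (j' : F.J i) (k' : G.J i),
        F.inc i j ≫ F.prj i j' ≫ G.inc i k' ≫ G.prj i k =
          if j = j' then (if k' = k then 𝟙 _ else 0) else 0 := by
      intro j' k'
      rw [← Category.assoc, F.inc_prj, G.inc_prj]
      split_ifs <;> simp
    simp_rw [h]
    rw [Finset.sum_eq_single j]
    · rw [Finset.sum_eq_single k]
      · simp
      · intro b _ hb; simp [hb]
      · simp
    · intro b _ hb; simp [Ne.symm hb]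
    · simp
  · intro b _ hb
    refine Finset.sum_eq_zero fun j' _ => Finset.sum_eq_zero fun k' _ => ?_
    rw [← Category.assoc (F.inc i j), F.inc_prj_ne (Ne.symm hb), zero_comp]
    simp
  · simp

lemma mat_injective {f g : X ⟶ Y} (h : F.mat G f = F.mat G g) : f = g := by
  rw [← F.unmat_mat G f, h, F.unmat_mat G g]

lemma mat_comp (f : X ⟶ Y) (g : Y ⟶ Z) (i : Fin R.n) :
    F.mat H (f ≫ g) i = F.mat G f i * G.mat H g i := by
  ext j k
  rw [Matrix.mul_apply, mat_apply, ← Category.assoc, ← Category.assoc,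
    G.expand (F.inc i j ≫ f)]
  simp only [Category.assoc, Preadditive.sum_comp, Linear.smul_comp, map_sum, map_smul,
    smul_eq_mul, mat_apply]

lemma mat_id (i : Fin R.n) : F.mat F (𝟙 X) i = 1 := by
  ext j k
  rw [mat_apply, Category.id_comp, F.inc_prj, Matrix.one_apply]
  split_ifs <;> simp

/-- The star (adjoint) of a morphism with respect to frames. -/
noncomputable def star (f : X ⟶ Y) : Y ⟶ X :=
  G.unmat F fun i => (F.mat G f i)ᴴ

lemma mat_star (f : X ⟶ Y) (i : Fin R.n) : G.mat F (F.star G f) i = (F.mat G f i)ᴴ := by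
  unfold star
  rw [mat_unmat]

lemma star_eq_iff (f : X ⟶ Y) (g : Y ⟶ X) :
    F.star G f = g ↔ ∀ i, G.mat F g i = (F.mat G f i)ᴴ := by
  constructor
  · rintro rfl i
    exact mat_star F G f i
  · intro h
    apply G.mat_injective F
    funext i
    rw [mat_star, h]

lemma star_star (f : X ⟶ Y) : G.star F (F.star G f) = f := by
  rw [star_eq_iff]
  intro i
  rw [mat_star, Matrix.conjTranspose_conjTranspose]

lemma star_add (f g : X ⟶ Y) : F.star G (f + g) = F.star G f + F.star G g := by
  rw [star_eq_iff]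
  intro i
  rw [mat_add, mat_add, Pi.add_apply, Pi.add_apply, mat_star, mat_star,
    Matrix.conjTranspose_add]

lemma star_smul (z : ℂ) (f : X ⟶ Y) : F.star G (z • f) = conj z • F.star G f := by
  rw [star_eq_iff]
  intro i
  rw [mat_smul, mat_smul, Pi.smul_apply, Pi.smul_apply, mat_star, Matrix.conjTranspose_smul]
  rfl

lemma star_zero : F.star G (0 : X ⟶ Y) = 0 := by
  rw [star_eq_iff]
  intro i
  rw [mat_zero, mat_zero]
  ext; simp

lemma star_comp (f : X ⟶ Y) (g : Y ⟶ Z) :
    F.star H (f ≫ g) = G.star H g ≫ F.star G f := by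
  rw [star_eq_iff]
  intro i
  rw [H.mat_comp G F, F.mat_comp G H, mat_star, mat_star, Matrix.conjTranspose_mul]

lemma star_id : F.star F (𝟙 X) = 𝟙 X := by
  rw [star_eq_iff]
  intro i
  rw [mat_id, Matrix.conjTranspose_one]

lemma star_unit (i : Fin R.n) (j : F.J i) (k : G.J i) :
    F.star G (F.prj i j ≫ G.inc i k) = G.prj i k ≫ F.inc i j := by
  rw [star_eq_iff]
  intro i'
  ext k' j'
  rw [Matrix.conjTranspose_apply, mat_apply, mat_apply]
  by_cases h : i' = i
  · subst h
    have h1 : G.inc i' k' ≫ (G.prj i' k ≫ F.inc i' j) ≫ F.prj i' j' =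
        (G.inc i' k' ≫ G.prj i' k) ≫ (F.inc i' j ≫ F.prj i' j') := by simp
    have h2 : F.inc i' j' ≫ (F.prj i' j ≫ G.inc i' k) ≫ G.prj i' k' =
        (F.inc i' j' ≫ F.prj i' j) ≫ (G.inc i' k ≫ G.prj i' k') := by simp
    rw [h1, h2, sc_comp, sc_comp, F.inc_prj, F.inc_prj, G.inc_prj, G.inc_prj]
    rcases eq_or_ne k' k with rfl | hk <;> rcases eq_or_ne j j' with rfl | hj
    · simp
    · simp [hj, hj.symm]
    · simp [hk, hk.symm]
    · simp [hk, hk.symm]
  · have h1 : G.inc i' k' ≫ (G.prj i k ≫ F.inc i j) ≫ F.prj i' j' = 0 := by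
      rw [Category.assoc, ← Category.assoc, G.inc_prj_ne h, zero_comp]
    have h2 : F.inc i' j' ≫ (F.prj i j ≫ G.inc i k) ≫ G.prj i' k' = 0 := by
      rw [Category.assoc, ← Category.assoc, F.inc_prj_ne h, zero_comp]
    rw [h1, h2]
    simp

end Frame

end MP_7857a6_al
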