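import Pool.Agent.MP_7857a6_al.Galindo
import Pool.Agent.MP_7857a6_al.Forward

/-!
# From C*-tensor structures to unitary F-matrices
-/

open CategoryTheory CategoryTheory.Limits MonoidalCategory

open scoped ComplexConjugate ComplexOrder Matrix

namespace MP_7857a6_al

universe v u

set_option linter.style.haveILetI false
set_option linter.unusedSectionVars false

namespace CStarStructure

variable {D : Type u} [Category.{v} D] [Preadditive D] [Linear ℂ D] (T : CStarStructure D)

/-- The scalar of an endomorphism of a scalar object. -/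
noncomputable def scal {s : D} (hs : IsScalar s) (f : s ⟶ s) : ℂ := (hs.2 f).choose

lemma scal_smul {s : D} (hs : IsScalar s) (f : s ⟶ s) : f = scal hs f • 𝟙 s :=
  (hs.2 f).choose_spec

lemma smul_id_inj {s : D} (hs : IsScalar s) {x y : ℂ} (h : x • 𝟙 s = y • 𝟙 s) : x = y := by
  have h1 : (x - y) • 𝟙 s = 0 := by rw [sub_smul, h, sub_self]
  rcases smul_eq_zero.mp h1 with h2 | h2
  · exact sub_eq_zero.mp h2
  · exact absurd h2 hs.1

lemma scal_eq {s : D} (hs : IsScalar s) {f : s ⟶ s} {z : ℂ} (h : f = z • 𝟙 s) :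
    scal hs f = z := smul_id_inj hs (by rw [← scal_smul hs f, h])

lemma scal_add {s : D} (hs : IsScalar s) (f h : s ⟶ s) :
    scal hs (f + h) = scal hs f + scal hs h := by
  apply scal_eq
  rw [add_smul, ← scal_smul, ← scal_smul]

lemma scal_smul' {s : D} (hs : IsScalar s) (z : ℂ) (f : s ⟶ s) :
    scal hs (z • f) = z * scal hs f := by
  apply scal_eq
  rw [mul_smul, ← scal_smul]

lemma scal_id {s : D} (hs : IsScalar s) : scal hs (𝟙 s) = 1 := by
  apply scal_eq; simp

lemma scal_zero {s : D} (hs : IsScalar s) : scal hs 0 = 0 := by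
  apply scal_eq; simp

lemma scal_star {s : D} (hs : IsScalar s) (f : s ⟶ s) :
    scal hs (T.star f) = conj (scal hs f) := by
  apply scal_eq
  conv_lhs => rw [scal_smul hs f]
  rw [T.star_smul, T.star_id]

/-- Orthonormal bases. -/
lemma exists_orthonormal {s X : D} (hs : IsScalar s) (hfin : FiniteDimensional ℂ (s ⟶ X)) :
    ∃ (N : ℕ) (b : Module.Basis (Fin N) ℂ (s ⟶ X)),
      ∀ m m', b m ≫ T.star (b m') = if m = m' then 𝟙 s else 0 := by
  let core : InnerProductSpace.Core ℂ (s ⟶ X) :=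
    { inner := fun x y => scal hs (y ≫ T.star x)
      conj_inner_symm := fun x y => by
        change conj (scal hs (x ≫ T.star y)) = scal hs (y ≫ T.star x)
        rw [← T.scal_star, T.star_comp, T.star_star]
      re_inner_nonneg := fun x => by
        rw [scal_eq hs (T.comp_star hs x)]
        exact T.N_nonneg x
      add_left := fun x y z => by
        change scal hs (z ≫ T.star (x + y)) = scal hs (z ≫ T.star x) + scal hs (z ≫ T.star y)
        rw [T.star_add, Preadditive.comp_add, scal_add]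
      smul_left := fun x y r => by
        change scal hs (y ≫ T.star (r • x)) = conj r * scal hs (y ≫ T.star x)
        rw [T.star_smul, Linear.comp_smul, scal_smul']
      definite := fun x hx => by
        change scal hs (x ≫ T.star x) = 0 at hx
        rw [scal_eq hs (T.comp_star hs x)] at hx
        exact (T.N_eq_zero x).mp (by exact_mod_cast hx) }
  letI : NormedAddCommGroup (s ⟶ X) := core.toNormedAddCommGroup
  letI : InnerProductSpace ℂ (s ⟶ X) := InnerProductSpace.ofCore core.toCore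
  haveI : FiniteDimensional ℂ (s ⟶ X) := hfin
  let b := stdOrthonormalBasis ℂ (s ⟶ X)
  refine ⟨Module.finrank ℂ (s ⟶ X), b.toBasis, fun m m' => ?_⟩
  have h1 := orthonormal_iff_ite.mp b.orthonormal m' m
  have h2 : scal hs (b m ≫ T.star (b m')) = if m' = m then 1 else 0 := h1
  rw [OrthonormalBasis.coe_toBasis, scal_smul hs (b m ≫ T.star (b m')), h2]
  rcases eq_or_ne m m' with rfl | h
  · simp
  · simp [h, h.symm]

/-- Expansion in a complete family. -/
lemma expand_of_total {n : ℕ} {s : Fin n → D} (hs : ∀ a, IsScalar (s a))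
    (hne : ∀ a b, a ≠ b → ∀ f : s a ⟶ s b, f = 0) {Y : D} {J : Fin n → Type}
    [∀ d, Fintype (J d)] (v : ∀ d, J d → (s d ⟶ Y))
    (htot : ∑ d, ∑ j, T.star (v d j) ≫ v d j = 𝟙 Y) {d : Fin n} (x : s d ⟶ Y) :
    x = ∑ j, scal (hs d) (x ≫ T.star (v d j)) • v d j := by
  conv_lhs => rw [← Category.comp_id x, ← htot]
  rw [Preadditive.comp_sum, Finset.sum_eq_single d]
  · rw [Preadditive.comp_sum]
    refine Finset.sum_congr rfl fun j _ => ?_
    rw [← Category.assoc]
    conv_lhs => rw [scal_smul (hs d) (x ≫ T.star (v d j))]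
    simp
  · intro b _ hb
    rw [Preadditive.comp_sum]
    refine Finset.sum_eq_zero fun j _ => ?_
    rw [← Category.assoc, hne d b (Ne.symm hb) (x ≫ T.star (v b j)), zero_comp]
  · simp

/-- The matrix of a unitary in orthonormal bases is unitary. -/
lemma exists_unitary_matrix {n : ℕ} {s : Fin n → D} (hs : ∀ a, IsScalar (s a))
    (hne : ∀ a b, a ≠ b → ∀ f : s a ⟶ s b, f = 0) {X Y : D} {I J : Fin n → Type}
    [∀ d, Fintype (I d)] [∀ d, Fintype (J d)] [∀ d, DecidableEq (I d)] [∀ d, DecidableEq (J d)]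
    (u : ∀ d, I d → (s d ⟶ X)) (v : ∀ d, J d → (s d ⟶ Y))
    (hu : ∀ d i j, u d i ≫ T.star (u d j) = if i = j then 𝟙 _ else 0)
    (hv : ∀ d i j, v d i ≫ T.star (v d j) = if i = j then 𝟙 _ else 0)
    (hut : ∑ d, ∑ j, T.star (u d j) ≫ u d j = 𝟙 X)
    (hvt : ∑ d, ∑ j, T.star (v d j) ≫ v d j = 𝟙 Y)
    (α : X ⟶ Y) (h1 : α ≫ T.star α = 𝟙 X) (h2 : T.star α ≫ α = 𝟙 Y) (d : Fin n) :
    ∃ M : Matrix (J d) (I d) ℂ, (∀ i, u d i ≫ α = ∑ j, M j i • v d j) ∧
      Mᴴ * M = 1 ∧ M * Mᴴ = 1 := by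
  have key : ∀ {X Y : D} {I J : Type} [Fintype I] [Fintype J] [DecidableEq I]
      (u : I → (s d ⟶ X)) (v : J → (s d ⟶ Y))
      (hu : ∀ i j, u i ≫ T.star (u j) = if i = j then 𝟙 _ else 0)
      (hv : ∀ x : s d ⟶ Y, x = ∑ j, scal (hs d) (x ≫ T.star (v j)) • v j)
      (α : X ⟶ Y) (h1 : α ≫ T.star α = 𝟙 X) (i i' : I),
      ∑ j, scal (hs d) (u i ≫ α ≫ T.star (v j)) * conj (scal (hs d) (u i' ≫ α ≫ T.star (v j))) =
        if i = i' then 1 else 0 := by
    intro X Y I J _ _ _ u v hu hv α h1 i i'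
    have h3 : (u i ≫ α) ≫ T.star (u i' ≫ α) = if i = i' then 𝟙 _ else 0 := by
      rw [T.star_comp, Category.assoc, ← Category.assoc α, h1, Category.id_comp, hu]
    have h4 : scal (hs d) ((u i ≫ α) ≫ T.star (u i' ≫ α)) = if i = i' then 1 else 0 := by
      rw [h3]
      split_ifs
      · exact scal_id _
      · exact scal_zero _
    rw [← h4]
    conv_rhs => rw [hv (u i ≫ α)]
    symm
    apply scal_eq
    rw [Preadditive.sum_comp, Finset.sum_smul]
    refine Finset.sum_congr rfl fun j _ => ?_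
    rw [Linear.smul_comp, mul_smul]
    congr 1
    · simp only [Category.assoc]
    · rw [← T.scal_star, ← scal_smul]
      simp only [T.star_comp, T.star_star, Category.assoc]
  have hvx := fun x : s d ⟶ Y => T.expand_of_total hs hne v hvt x
  have hux := fun x : s d ⟶ X => T.expand_of_total hs hne u hut x
  obtain ⟨M, hM⟩ : ∃ M : J d → I d → ℂ, ∀ j i,
      M j i = scal (hs d) (u d i ≫ α ≫ T.star (v d j)) := ⟨_, fun _ _ => rfl⟩
  have hM' : ∀ j i, conj (M j i) = scal (hs d) (v d j ≫ T.star α ≫ T.star (u d i)) := by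
    intro j i
    rw [hM, ← T.scal_star]
    simp only [T.star_comp, T.star_star, Category.assoc]
  refine ⟨Matrix.of M, ?_, ?_, ?_⟩
  · intro i
    rw [hvx (u d i ≫ α)]
    refine Finset.sum_congr rfl fun j _ => ?_
    rw [Matrix.of_apply, hM, Category.assoc]
  · ext i' i
    rw [Matrix.mul_apply, Matrix.one_apply]
    simp only [Matrix.conjTranspose_apply, Matrix.of_apply]
    have h3 := key (u d) (v d) (hu d) hvx α h1 i i'
    simp_rw [← hM] at h3
    rw [show (if i' = i then (1 : ℂ) else 0) = if i = i' then 1 else 0 by simp [eq_comm], ← h3]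
    refine Finset.sum_congr rfl fun j _ => ?_
    rw [mul_comm]; rfl
  · ext j' j
    rw [Matrix.mul_apply, Matrix.one_apply]
    simp only [Matrix.conjTranspose_apply, Matrix.of_apply]
    have h3 := key (v d) (u d) (hv d) hux (T.star α) (by rw [T.star_star, h2]) j j'
    simp_rw [← hM', Complex.conj_conj] at h3
    rw [show (if j' = j then (1 : ℂ) else 0) = if j = j' then 1 else 0 by simp [eq_comm], ← h3]
    refine Finset.sum_congr rfl fun i _ => ?_
    rw [mul_comm]; rfl

/-- Completeness of orthonormal bases. -/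
lemma total_of_basis {n : ℕ} {s : Fin n → D} (hne : ∀ a b, a ≠ b → ∀ f : s a ⟶ s b, f = 0)
    {X : D} (hdec : ∃ (J : Type) (_ : Fintype J) (l : J → Fin n) (i : ∀ j, s (l j) ⟶ X)
      (p : ∀ j, X ⟶ s (l j)), ∑ j, p j ≫ i j = 𝟙 X)
    (N : Fin n → ℕ) (b : ∀ c, Module.Basis (Fin (N c)) ℂ (s c ⟶ X))
    (hb : ∀ c m m', b c m ≫ T.star (b c m') = if m = m' then 𝟙 _ else 0) :
    ∑ c, ∑ m, T.star (b c m) ≫ b c m = 𝟙 X := by
  have h1 : ∀ (d : Fin n) (x : s d ⟶ X), x ≫ (∑ c, ∑ m, T.star (b c m) ≫ b c m) = x := by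
    intro d x
    rw [Preadditive.comp_sum, Finset.sum_eq_single d]
    · have h2 : ∀ m, x ≫ T.star (b d m) ≫ b d m = (b d).repr x m • b d m := by
        intro m
        have h3 : x ≫ T.star (b d m) = (b d).repr x m • 𝟙 _ := by
          conv_lhs => rw [← (b d).sum_repr x]
          rw [Preadditive.sum_comp, Finset.sum_eq_single m]
          · rw [Linear.smul_comp, hb, if_pos rfl]
          · intro m' _ hm'
            rw [Linear.smul_comp, hb, if_neg hm', smul_zero]
          · simp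
        rw [← Category.assoc, h3]; simp
      rw [Preadditive.comp_sum]
      simp_rw [h2]
      exact (b d).sum_repr x
    · intro c _ hc
      rw [Preadditive.comp_sum]
      refine Finset.sum_eq_zero fun m _ => ?_
      rw [← Category.assoc, hne d c (Ne.symm hc) (x ≫ T.star (b c m)), zero_comp]
    · simp
  obtain ⟨J, _, l, i, p, hp⟩ := hdec
  conv_lhs => rw [← Category.id_comp (∑ c, ∑ m, T.star (b c m) ≫ b c m), ← hp]
  rw [Preadditive.sum_comp]
  simp_rw [Category.assoc, h1]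
  exact hp

section Trees

variable {T}
variable [MonoidalCategory D] [MonoidalPreadditive D] [MonoidalLinear ℂ D] (hT : T.IsTensor)
  {n : ℕ} {s : Fin n → D} (hne : ∀ a b, a ≠ b → ∀ f : s a ⟶ s b, f = 0)
  (N : Fin n → Fin n → Fin n → ℕ) (w : ∀ a b c, Fin (N a b c) → (s c ⟶ s a ⊗ s b))
  (hw : ∀ a b c m m', w a b c m ≫ T.star (w a b c m') = if m = m' then 𝟙 _ else 0)
  (hwt : ∀ a b, ∑ c, ∑ m, T.star (w a b c m) ≫ w a b c m = 𝟙 _)

/-- left trees -/
noncomputable def tL (a b c d : Fin n) (t : Σ e, Fin (N a b e) × Fin (N e c d)) :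
    s d ⟶ (s a ⊗ s b) ⊗ s c :=
  w t.1 c d t.2.2 ≫ (w a b t.1 t.2.1 ▷ s c)

/-- right trees -/
noncomputable def tR (a b c d : Fin n) (t : Σ f, Fin (N b c f) × Fin (N a f d)) :
    s d ⟶ s a ⊗ (s b ⊗ s c) :=
  w a t.1 d t.2.2 ≫ (s a ◁ w b c t.1 t.2.1)

include hT hne hw in
lemma tL_orth (a b c d : Fin n) (t t' : Σ e, Fin (N a b e) × Fin (N e c d)) :
    tL N w a b c d t ≫ T.star (tL N w a b c d t') = if t = t' then 𝟙 _ else 0 := by
  obtain ⟨e, m, m'⟩ := t
  obtain ⟨e', k, k'⟩ := t'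
  have h0 : tL N w a b c d ⟨e, m, m'⟩ ≫ T.star (tL N w a b c d ⟨e', k, k'⟩) =
      w e c d m' ≫ ((w a b e m ≫ T.star (w a b e' k)) ▷ s c) ≫ T.star (w e' c d k') := by
    unfold tL
    rw [T.star_comp, hT.star_whiskerRight]
    simp
  rw [h0]
  by_cases he : e = e'
  · subst he
    rw [hw]
    by_cases hk : m = k
    · subst hk
      simp [hw]
    · simp [hk]
  · rw [hne e e' he (w a b e m ≫ T.star (w a b e' k))]
    simp [he]

include hT hne hw in
lemma tR_orth (a b c d : Fin n) (t t' : Σ f, Fin (N b c f) × Fin (N a f d)) :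
    tR N w a b c d t ≫ T.star (tR N w a b c d t') = if t = t' then 𝟙 _ else 0 := by
  obtain ⟨e, m, m'⟩ := t
  obtain ⟨e', k, k'⟩ := t'
  have h0 : tR N w a b c d ⟨e, m, m'⟩ ≫ T.star (tR N w a b c d ⟨e', k, k'⟩) =
      w a e d m' ≫ (s a ◁ (w b c e m ≫ T.star (w b c e' k))) ≫ T.star (w a e' d k') := by
    unfold tR
    rw [T.star_comp, hT.star_whiskerLeft]
    simp
  rw [h0]
  by_cases he : e = e'
  · subst he
    rw [hw]
    by_cases hk : m = k
    · subst hk
      simp [hw]
    · simp [hk]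
  · rw [hne e e' he (w b c e m ≫ T.star (w b c e' k))]
    simp [he]

include hT hwt in
lemma tL_total (a b c : Fin n) :
    ∑ d, ∑ t, T.star (tL N w a b c d t) ≫ tL N w a b c d t = 𝟙 _ := by
  have h1 : ∀ d t, T.star (tL N w a b c d t) ≫ tL N w a b c d t =
      (T.star (w a b t.1 t.2.1) ▷ s c) ≫ (T.star (w t.1 c d t.2.2) ≫ w t.1 c d t.2.2) ≫
        (w a b t.1 t.2.1 ▷ s c) := by
    intro d t
    unfold tL
    rw [T.star_comp, hT.star_whiskerRight]
    simp only [Category.assoc]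
  simp_rw [h1, Fintype.sum_sigma, Fintype.sum_prod_type]
  rw [Finset.sum_comm]
  have h2 : ∀ f : Fin n, ∑ d, ∑ k : Fin (N a b f), ∑ m : Fin (N f c d),
      (T.star (w a b f k) ▷ s c) ≫ (T.star (w f c d m) ≫ w f c d m) ≫
        (w a b f k ▷ s c) = (∑ k, T.star (w a b f k) ≫ w a b f k) ▷ s c := by
    intro f
    rw [Finset.sum_comm, sum_whiskerRight]
    refine Finset.sum_congr rfl fun k _ => ?_
    simp_rw [← Preadditive.comp_sum, ← Preadditive.sum_comp]
    rw [hwt, Category.id_comp, comp_whiskerRight]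
  simp_rw [h2]
  rw [← sum_whiskerRight, hwt, id_whiskerRight]

include hT hwt in
lemma tR_total (a b c : Fin n) :
    ∑ d, ∑ t, T.star (tR N w a b c d t) ≫ tR N w a b c d t = 𝟙 _ := by
  have h1 : ∀ d t, T.star (tR N w a b c d t) ≫ tR N w a b c d t =
      (s a ◁ T.star (w b c t.1 t.2.1)) ≫ (T.star (w a t.1 d t.2.2) ≫ w a t.1 d t.2.2) ≫
        (s a ◁ w b c t.1 t.2.1) := by
    intro d t
    unfold tR
    rw [T.star_comp, hT.star_whiskerLeft]
    simp only [Category.assoc]
  simp_rw [h1, Fintype.sum_sigma, Fintype.sum_prod_type]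
  rw [Finset.sum_comm]
  have h2 : ∀ f : Fin n, ∑ d, ∑ k : Fin (N b c f), ∑ m : Fin (N a f d),
      (s a ◁ T.star (w b c f k)) ≫ (T.star (w a f d m) ≫ w a f d m) ≫
        (s a ◁ w b c f k) = s a ◁ (∑ k, T.star (w b c f k) ≫ w b c f k) := by
    intro f
    rw [Finset.sum_comm, whiskerLeft_sum]
    refine Finset.sum_congr rfl fun k _ => ?_
    simp_rw [← Preadditive.comp_sum, ← Preadditive.sum_comp]
    rw [hwt, Category.id_comp, whiskerLeft_comp]
  simp_rw [h2]
  rw [← whiskerLeft_sum, hwt, whiskerLeft_id]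

include hT hw hwt in
/-- F-matrices in a C*-tensor category are unitary. -/
lemma exists_F (hs : ∀ a, IsScalar (s a)) (hne : ∀ a b, a ≠ b → ∀ f : s a ⟶ s b, f = 0)
    (a b c d : Fin n) :
    ∃ M : Matrix (Σ f, Fin (N b c f) × Fin (N a f d)) (Σ e, Fin (N a b e) × Fin (N e c d)) ℂ,
      (∀ t, tL N w a b c d t ≫ (α_ (s a) (s b) (s c)).hom = ∑ r, M r t • tR N w a b c d r) ∧
      Mᴴ * M = 1 ∧ M * Mᴴ = 1 :=
  T.exists_unitary_matrix hs hne (tL N w a b c) (tR N w a b c) (tL_orth hT hne N w hw a b c)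
    (tR_orth hT hne N w hw a b c) (tL_total hT N w hwt a b c) (tR_total hT N w hwt a b c)
    (α_ (s a) (s b) (s c)).hom (by rw [hT.star_associator, Iso.hom_inv_id])
    (by rw [hT.star_associator, Iso.inv_hom_id]) d

end Trees

end CStarStructure

end MP_7857a6_al
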