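import Pool.Agent.MP_7857a6_al.TensorFrame

/-!
# The star operation and the tensor product; unitarity of the associator
-/

open CategoryTheory CategoryTheory.Limits MonoidalCategory

open scoped ComplexConjugate Matrix

namespace MP_7857a6_al

universe v u

set_option linter.style.haveILetI false
set_option linter.unusedSectionVars false

variable {C : Type u} [Category.{v} C] [Abelian C] [Linear ℂ C] [SemiSimp C] {R : SimpleReps C}

namespace Frame

section

variable {X Y Z : C} (F : Frame R X) (G : Frame R Y) (H : Frame R Z)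

lemma star_sum {ι : Type*} (s : Finset ι) (f : ι → (X ⟶ Y)) :
    F.star G (∑ x ∈ s, f x) = ∑ x ∈ s, F.star G (f x) := by
  classical
  induction s using Finset.induction_on with
  | empty => simp [star_zero]
  | insert a s ha ih => rw [Finset.sum_insert ha, Finset.sum_insert ha, star_add, ih]

lemma eq_expand (f : X ⟶ Y) :
    f = ∑ i, ∑ j, ∑ k, F.mat G f i j k • (F.prj i j ≫ G.inc i k) :=
  (F.unmat_mat G f).symm

lemma star_expand (f : X ⟶ Y) :
    F.star G f = ∑ i, ∑ j, ∑ k, conj (F.mat G f i j k) • (G.prj i k ≫ F.inc i j) := by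
  conv_lhs => rw [F.eq_expand G f]
  simp_rw [star_sum, star_smul, star_unit]

lemma star_prj (i : Fin R.n) (j : F.J i) :
    F.star (simple R i) (F.prj i j) = F.inc i j := by
  have h := F.star_unit (simple R i) i j (PLift.up rfl)
  have h1 : (simple R i).inc i (PLift.up rfl) = 𝟙 _ := rfl
  have h2 : (simple R i).prj i (PLift.up rfl) = 𝟙 _ := rfl
  rw [h1, h2, Category.comp_id, Category.id_comp] at h
  exact h

lemma star_inc (i : Fin R.n) (j : F.J i) :
    (simple R i).star F (F.inc i j) = F.prj i j := by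
  rw [← star_prj, star_star]

end

end Frame

section Tensor

variable [MonoidalCategory C] [MonoidalPreadditive C] [MonoidalLinear ℂ C]

lemma smul_tensor' {W X Y Z : C} (z : ℂ) (f : W ⟶ X) (h : Y ⟶ Z) :
    (z • f) ⊗ₘ h = z • (f ⊗ₘ h) := by
  rw [MonoidalCategory.tensorHom_def, MonoidalCategory.tensorHom_def, MonoidalLinear.smul_whiskerRight, Linear.smul_comp]

lemma tensor_smul' {W X Y Z : C} (z : ℂ) (f : W ⟶ X) (h : Y ⟶ Z) :
    f ⊗ₘ (z • h) = z • (f ⊗ₘ h) := by
  rw [MonoidalCategory.tensorHom_def, MonoidalCategory.tensorHom_def, MonoidalLinear.whiskerLeft_smul, Linear.comp_smul]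

variable (g : Gauge R)

namespace Frame

lemma star_tensor_unit {X Y X' Y' : C} (F : Frame R X) (G : Frame R Y) (F' : Frame R X')
    (G' : Frame R Y') (i i' : Fin R.n) (j : F.J i) (k : G.J i) (j' : F'.J i') (k' : G'.J i') :
    (F.tensor g F').star (G.tensor g G') ((F.prj i j ≫ G.inc i k) ⊗ₘ (F'.prj i' j' ≫ G'.inc i' k'))
      = (G.prj i k ≫ F.inc i j) ⊗ₘ (G'.prj i' k' ≫ F'.inc i' j') := by
  have key : ∀ {X Y X' Y' : C} (F : Frame R X) (G : Frame R Y) (F' : Frame R X')
      (G' : Frame R Y') (j : F.J i) (k : G.J i) (j' : F'.J i') (k' : G'.J i'),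
      (F.prj i j ≫ G.inc i k) ⊗ₘ (F'.prj i' j' ≫ G'.inc i' k') =
      ∑ c, ∑ m, (F.tensor g F').prj c ⟨i, i', j, j', m⟩ ≫
        (G.tensor g G').inc c ⟨i, i', k, k', m⟩ := by
    intro X Y X' Y' F G F' G' j k j' k'
    have h1 : ∀ c m, (F.tensor g F').prj c ⟨i, i', j, j', m⟩ ≫
        (G.tensor g G').inc c ⟨i, i', k, k', m⟩ =
        (F.prj i j ⊗ₘ F'.prj i' j') ≫ (g.dual i i' c m ≫ g.basis i i' c m) ≫
          (G.inc i k ⊗ₘ G'.inc i' k') := by
      intro c m
      simp only [Frame.tensor, Category.assoc]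
    simp_rw [h1, ← Preadditive.comp_sum, ← Preadditive.sum_comp]
    rw [g.total, Category.id_comp, tensorHom_comp_tensorHom]
  rw [key F G F' G' j k j' k', key G F G' F' k j k' j']
  simp_rw [star_sum, star_unit]

lemma star_tensor {X Y X' Y' : C} (F : Frame R X) (G : Frame R Y) (F' : Frame R X')
    (G' : Frame R Y') (f : X ⟶ Y) (f' : X' ⟶ Y') :
    (F.tensor g F').star (G.tensor g G') (f ⊗ₘ f') = F.star G f ⊗ₘ F'.star G' f' := by
  conv_lhs => rw [F.eq_expand G f, F'.eq_expand G' f']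
  rw [F.star_expand G f, F'.star_expand G' f']
  simp_rw [sum_tensor, tensor_sum, smul_tensor', tensor_smul', star_sum, star_smul,
    star_tensor_unit]

lemma star_whiskerRight {X Y Z : C} (F : Frame R X) (G : Frame R Y) (H : Frame R Z)
    (f : X ⟶ Y) :
    (F.tensor g H).star (G.tensor g H) (f ▷ Z) = F.star G f ▷ Z := by
  rw [← tensorHom_id, star_tensor, star_id, tensorHom_id]

lemma star_whiskerLeft {X Y Z : C} (F : Frame R X) (G : Frame R Y) (H : Frame R Z)
    (f : X ⟶ Y) :
    (H.tensor g F).star (H.tensor g G) (Z ◁ f) = Z ◁ F.star G f := by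
  rw [← id_tensorHom, star_tensor, star_id, id_tensorHom]

lemma star_basis (a b c : Fin R.n) (m : Fin (g.mult a b c)) :
    (simple R c).star ((simple R a).tensor g (simple R b)) (g.basis a b c m) =
      g.dual a b c m := by
  have h := ((simple R a).tensor g (simple R b)).star_inc c ⟨a, b, ⟨rfl⟩, ⟨rfl⟩, m⟩
  have h1 : ((simple R a).tensor g (simple R b)).inc c ⟨a, b, ⟨rfl⟩, ⟨rfl⟩, m⟩ =
      g.basis a b c m ≫ (𝟙 (R.S a) ⊗ₘ 𝟙 (R.S b)) := rfl
  have h2 : ((simple R a).tensor g (simple R b)).prj c ⟨a, b, ⟨rfl⟩, ⟨rfl⟩, m⟩ =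
      (𝟙 (R.S a) ⊗ₘ 𝟙 (R.S b)) ≫ g.dual a b c m := rfl
  rw [h1, h2, id_tensorHom_id, Category.comp_id, Category.id_comp] at h
  exact h

end Frame

end Tensor

end MP_7857a6_al
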