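import Pool.Agent.MP_7857a6_al.Mat

/-!
# The dual basis frame and the tensor product frame
-/

open CategoryTheory CategoryTheory.Limits MonoidalCategory

open scoped ComplexConjugate Matrix

namespace MP_7857a6_al

universe v u

set_option linter.style.haveILetI false
set_option linter.unusedSectionVars false

variable {C : Type u} [Category.{v} C] [Abelian C] [Linear ℂ C] [SemiSimp C] {R : SimpleReps C}

namespace Frame

/-- The frame given by bases of all `Hom(c, Z)` and their dual bases. -/
noncomputable def ofBases {Z : C} (N : Fin R.n → ℕ)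
    (B : ∀ c, Module.Basis (Fin (N c)) ℂ (R.S c ⟶ Z)) : Frame R Z :=
  letI F : Frame R Z := Classical.choice (nonempty R Z)
  { J := fun c => Fin (N c)
    ft := fun _ => inferInstance
    de := fun _ => inferInstance
    inc := fun c k => B c k
    prj := fun c k => ∑ j, (B c).repr (F.inc c j) k • F.prj c j
    inc_prj := fun c k k' => by
      have h := congrArg (fun x => (B c).repr x k') (F.expand (B c k))
      simp only [Module.Basis.repr_self, map_sum, map_smul, Finsupp.coe_finsetSum,
        Finset.sum_apply, Finsupp.coe_smul, Pi.smul_apply, smul_eq_mul] at h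
      have h2 : B c k ≫ ∑ j, (B c).repr (F.inc c j) k' • F.prj c j =
          (∑ j, sc R (B c k ≫ F.prj c j) * (B c).repr (F.inc c j) k') • 𝟙 (R.S c) := by
        rw [Preadditive.comp_sum, Finset.sum_smul]
        refine Finset.sum_congr rfl fun j _ => ?_
        rw [Linear.comp_smul]
        conv_lhs => rw [← sc_smul_id R (B c k ≫ F.prj c j)]
        rw [smul_smul, mul_comm]
      rw [h2, ← h, Finsupp.single_apply]
      split_ifs <;> simp
    total := by
      rw [← F.total]
      refine Finset.sum_congr rfl fun c _ => ?_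
      simp_rw [Preadditive.sum_comp, Linear.smul_comp]
      rw [Finset.sum_comm]
      refine Finset.sum_congr rfl fun j _ => ?_
      simp_rw [← Linear.comp_smul]
      rw [← Preadditive.comp_sum, (B c).sum_repr] }

@[simp] lemma ofBases_inc {Z : C} (N : Fin R.n → ℕ)
    (B : ∀ c, Module.Basis (Fin (N c)) ℂ (R.S c ⟶ Z)) (c : Fin R.n) (k : Fin (N c)) :
    (ofBases N B).inc c k = B c k := rfl

end Frame

section Tensor

variable [MonoidalCategory C] (g : Gauge R)

/-- The frame of `a ⊗ b` given by the gauge. -/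
noncomputable def Gauge.frame (a b : Fin R.n) : Frame R (R.S a ⊗ R.S b) :=
  Frame.ofBases (fun c => g.mult a b c) (fun c => g.basis a b c)

/-- The dual basis vector. -/
noncomputable def Gauge.dual (a b c : Fin R.n) (m : Fin (g.mult a b c)) :
    R.S a ⊗ R.S b ⟶ R.S c :=
  (g.frame a b).prj c m

lemma Gauge.basis_dual (a b c : Fin R.n) (m m' : Fin (g.mult a b c)) :
    g.basis a b c m ≫ g.dual a b c m' = if m = m' then 𝟙 _ else 0 :=
  (g.frame a b).inc_prj c m m'

lemma Gauge.total (a b : Fin R.n) :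
    ∑ c, ∑ m, g.dual a b c m ≫ g.basis a b c m = 𝟙 (R.S a ⊗ R.S b) :=
  (g.frame a b).total

variable [MonoidalPreadditive C] [MonoidalLinear ℂ C]

/-- The tensor product frame. -/
noncomputable def Frame.tensor {X Y : C} (F : Frame R X) (G : Frame R Y) :
    Frame R (X ⊗ Y) where
  J c := Σ a, Σ b, F.J a × G.J b × Fin (g.mult a b c)
  ft c := inferInstance
  de c := inferInstance
  inc c t := g.basis t.1 t.2.1 c t.2.2.2.2 ≫ (F.inc t.1 t.2.2.1 ⊗ₘ G.inc t.2.1 t.2.2.2.1)
  prj c t := (F.prj t.1 t.2.2.1 ⊗ₘ G.prj t.2.1 t.2.2.2.1) ≫ g.dual t.1 t.2.1 c t.2.2.2.2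
  inc_prj c t t' := by
    obtain ⟨a, b, j, k, m⟩ := t
    obtain ⟨a', b', j', k', m'⟩ := t'
    have h0 : (g.basis a b c m ≫ (F.inc a j ⊗ₘ G.inc b k)) ≫
        (F.prj a' j' ⊗ₘ G.prj b' k') ≫ g.dual a' b' c m' =
        g.basis a b c m ≫ ((F.inc a j ≫ F.prj a' j') ⊗ₘ (G.inc b k ≫ G.prj b' k')) ≫
          g.dual a' b' c m' := by
      simp [tensorHom_comp_tensorHom_assoc]
    dsimp only
    rw [h0]
    by_cases ha : a = a'
    · subst ha
      by_cases hb : b = b'
      · subst hb
        rw [F.inc_prj, G.inc_prj]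
        by_cases hj : j = j'
        · subst hj
          by_cases hk : k = k'
          · subst hk
            simp [g.basis_dual]
          · simp [hk]
        · simp [hj]
      · rw [G.inc_prj_ne hb]
        simp [hb]
    · rw [F.inc_prj_ne ha]
      simp [ha]
  total := by
    have h : ∀ (a b : Fin R.n) (j : F.J a) (k : G.J b),
        ∑ c, ∑ m, ((F.prj a j ⊗ₘ G.prj b k) ≫ g.dual a b c m) ≫
          (g.basis a b c m ≫ (F.inc a j ⊗ₘ G.inc b k)) =
        (F.prj a j ≫ F.inc a j) ⊗ₘ (G.prj b k ≫ G.inc b k) := by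
      intro a b j k
      have h1 : ∀ c m, ((F.prj a j ⊗ₘ G.prj b k) ≫ g.dual a b c m) ≫
          (g.basis a b c m ≫ (F.inc a j ⊗ₘ G.inc b k)) =
          (F.prj a j ⊗ₘ G.prj b k) ≫ (g.dual a b c m ≫ g.basis a b c m) ≫
            (F.inc a j ⊗ₘ G.inc b k) := by intros; simp
      simp_rw [h1, ← Preadditive.comp_sum, ← Preadditive.sum_comp]
      rw [g.total, Category.id_comp, tensorHom_comp_tensorHom]
    calc _ = ∑ a, ∑ b, ∑ j : F.J a, ∑ k : G.J b, ∑ c, ∑ m,
          ((F.prj a j ⊗ₘ G.prj b k) ≫ g.dual a b c m) ≫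
          (g.basis a b c m ≫ (F.inc a j ⊗ₘ G.inc b k)) := by
          simp_rw [Fintype.sum_sigma, Fintype.sum_prod_type]
          rw [Finset.sum_comm]
          refine Finset.sum_congr rfl fun a _ => ?_
          rw [Finset.sum_comm]
          refine Finset.sum_congr rfl fun b _ => ?_
          rw [Finset.sum_comm]
          refine Finset.sum_congr rfl fun j _ => ?_
          rw [Finset.sum_comm]
      _ = ∑ a, ∑ b, ∑ j : F.J a, ∑ k : G.J b,
          (F.prj a j ≫ F.inc a j) ⊗ₘ (G.prj b k ≫ G.inc b k) := by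
          simp_rw [h]
      _ = (∑ a, ∑ j : F.J a, F.prj a j ≫ F.inc a j) ⊗ₘ
          (∑ b, ∑ k : G.J b, G.prj b k ≫ G.inc b k) := by
          simp_rw [sum_tensor, tensor_sum]
          refine Finset.sum_congr rfl fun a _ => ?_
          rw [Finset.sum_comm]
      _ = 𝟙 _ := by rw [F.total, G.total]; simp

end Tensor

end MP_7857a6_al
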