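import Pool.Agent.MP_7857a6_al.Assoc

/-!
# The frame of the unit object; unitarity of the unit constraints
-/

open CategoryTheory CategoryTheory.Limits MonoidalCategory

open scoped ComplexConjugate Matrix

namespace MP_7857a6_al

universe v u

set_option linter.style.haveILetI false
set_option linter.unusedSectionVars false

variable {C : Type u} [Category.{v} C] [Abelian C] [Linear ℂ C] [SemiSimp C] {R : SimpleReps C}

namespace Frame

/-- `f* f` for a morphism to a simple object. -/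
lemma sc_star_comp_self {X : C} (F : Frame R X) {b : Fin R.n} (f : X ⟶ R.S b) :
    sc R (F.star (simple R b) f ≫ f) = ((∑ j, ‖sc R (F.inc b j ≫ f)‖ ^ 2 : ℝ) : ℂ) := by
  have h1 : sc R (F.star (simple R b) f ≫ f) =
      (simple R b).mat (simple R b) (F.star (simple R b) f ≫ f) b (PLift.up rfl) (PLift.up rfl) := by
    rw [mat_apply]
    have h1 : (simple R b).inc b (PLift.up rfl) = 𝟙 _ := rfl
    have h2 : (simple R b).prj b (PLift.up rfl) = 𝟙 _ := rfl
    rw [h1, h2, Category.comp_id, Category.id_comp]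
  rw [h1, (simple R b).mat_comp F (simple R b), Matrix.mul_apply]
  push_cast
  refine Finset.sum_congr rfl fun j _ => ?_
  rw [mat_star, Matrix.conjTranspose_apply, mat_apply]
  have h2 : (simple R b).prj b (PLift.up rfl) = 𝟙 _ := rfl
  rw [h2, Category.comp_id]
  exact Complex.conj_mul' _

lemma exists_star_comp_self {X : C} (F : Frame R X) {b : Fin R.n} (f : X ⟶ R.S b)
    (hf : f ≠ 0) : ∃ x : ℝ, 0 < x ∧ F.star (simple R b) f ≫ f = (x : ℂ) • 𝟙 _ := by
  refine ⟨∑ j, ‖sc R (F.inc b j ≫ f)‖ ^ 2, ?_, ?_⟩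
  · have h0 : 0 ≤ ∑ j, ‖sc R (F.inc b j ≫ f)‖ ^ 2 := Finset.sum_nonneg fun _ _ => by positivity
    refine lt_of_le_of_ne h0 fun h => hf ?_
    rw [eq_comm, Finset.sum_eq_zero_iff_of_nonneg (fun _ _ => by positivity)] at h
    rw [F.coexpand f]
    refine Finset.sum_eq_zero fun j hj => ?_
    have h2 := h j hj
    have h3 : sc R (F.inc b j ≫ f) = 0 := by
      have : ‖sc R (F.inc b j ≫ f)‖ = 0 := by
        by_contra h4
        have : 0 < ‖sc R (F.inc b j ≫ f)‖ ^ 2 := by positivity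
        linarith
      exact norm_eq_zero.mp this
    rw [h3, zero_smul]
  · rw [← F.sc_star_comp_self f, sc_smul_id]

lemma star_iso {X Y : C} (F : Frame R X) (e : X ≅ Y) :
    F.star (F.ofIso e) e.hom = e.inv := by
  rw [star_eq_iff]
  intro i
  ext j k
  rw [Matrix.conjTranspose_apply, mat_apply, mat_apply]
  have h1 : (F.ofIso e).inc i j ≫ e.inv ≫ F.prj i k = F.inc i j ≫ F.prj i k := by
    simp [ofIso]
  have h2 : F.inc i k ≫ e.hom ≫ (F.ofIso e).prj i j = F.inc i k ≫ F.prj i j := by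
    simp [ofIso]
  rw [h1, h2]
  have key : ∀ j k : F.J i, sc R (F.inc i j ≫ F.prj i k) =
      Star.star (sc R (F.inc i k ≫ F.prj i j)) := by
    intro j k
    rw [F.inc_prj, F.inc_prj]
    rcases eq_or_ne j k with rfl | h
    · simp
    · rw [if_neg h, if_neg h.symm]; simp
  exact key j k

end Frame

section Unit

variable [MonoidalCategory C] [MonoidalPreadditive C] [MonoidalLinear ℂ C]

variable [RightRigidCategory C]

variable (R) in
lemma id_tensor_ne_zero [Simple (𝟙_ C)] (a b : Fin R.n) : 𝟙 (R.S a ⊗ R.S b) ≠ 0 := by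
  intro h0
  set A := R.S a
  set B := (R.S a)ᘁ
  -- the evaluation is nonzero
  have hε : (ε_ A B) ≠ 0 := by
    intro h
    have hz := ExactPairing.evaluation_coevaluation A B
    rw [h] at hz
    have h1 : (𝟙 A) = 0 := by
      have : (λ_ A).hom ≫ (ρ_ A).inv = 0 := by rw [← hz]; simp
      calc 𝟙 A = (λ_ A).inv ≫ ((λ_ A).hom ≫ (ρ_ A).inv) ≫ (ρ_ A).hom := by simp
        _ = 0 := by rw [this]; simp
    exact id_ne_zero R a h1
  obtain ⟨u, ⟨ψ⟩⟩ := R.complete (𝟙_ C) inferInstance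
  obtain ⟨K⟩ := Frame.nonempty R (B ⊗ A)
  have h2 : ∃ j, K.inc u j ≫ (ε_ A B) ≫ ψ.hom ≠ 0 := by
    by_contra hcon
    push Not at hcon
    apply hε
    have h3 : (ε_ A B) ≫ ψ.hom = 0 := by
      rw [K.coexpand ((ε_ A B) ≫ ψ.hom)]
      refine Finset.sum_eq_zero fun j _ => ?_
      rw [hcon j]; simp
    calc (ε_ A B) = ((ε_ A B) ≫ ψ.hom) ≫ ψ.inv := by simp
      _ = 0 := by rw [h3]; simp
  obtain ⟨j, hj⟩ := h2
  set z := sc R (K.inc u j ≫ (ε_ A B) ≫ ψ.hom) with hz
  have hzz : z • 𝟙 (R.S u) = K.inc u j ≫ (ε_ A B) ≫ ψ.hom := sc_smul_id R _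
  have hz0 : z ≠ 0 := by
    intro h; rw [h, zero_smul] at hzz; exact hj hzz.symm
  have hs : (z⁻¹ • (ψ.hom ≫ K.inc u j)) ≫ (ε_ A B) = 𝟙 (𝟙_ C) := by
    have h4 : K.inc u j ≫ (ε_ A B) = z • ψ.inv := by
      calc K.inc u j ≫ (ε_ A B) = (K.inc u j ≫ (ε_ A B) ≫ ψ.hom) ≫ ψ.inv := by simp
        _ = z • ψ.inv := by rw [← hzz]; simp
    rw [Linear.smul_comp, Category.assoc, h4, Linear.comp_smul, ψ.hom_inv_id, smul_smul,
      inv_mul_cancel₀ hz0, one_smul]
  have h5 : 𝟙 ((B ⊗ A) ⊗ R.S b) = 0 := by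
    calc 𝟙 ((B ⊗ A) ⊗ R.S b) = (α_ _ _ _).hom ≫ (B ◁ 𝟙 (A ⊗ R.S b)) ≫ (α_ _ _ _).inv := by
          simp
      _ = 0 := by rw [h0]; simp
  apply id_ne_zero R b
  calc 𝟙 (R.S b) = (λ_ _).inv ≫ ((𝟙 (𝟙_ C)) ▷ R.S b) ≫ (λ_ _).hom := by simp
    _ = (λ_ _).inv ≫ ((z⁻¹ • (ψ.hom ≫ K.inc u j)) ▷ R.S b) ≫ 𝟙 ((B ⊗ A) ⊗ R.S b) ≫
          ((ε_ A B) ▷ R.S b) ≫ (λ_ _).hom := by rw [← hs]; simp
    _ = 0 := by rw [h5]; simp

/-- Rescaling automorphism of the unit. -/
noncomputable def scaleIso (C : Type u) [Category.{v} C] [Abelian C] [Linear ℂ C]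
    [MonoidalCategory C] (κ : ℂ) (hκ : κ ≠ 0) : 𝟙_ C ≅ 𝟙_ C where
  hom := κ • 𝟙 _
  inv := κ⁻¹ • 𝟙 _
  hom_inv_id := by simp [smul_smul, hκ]
  inv_hom_id := by simp [smul_smul, hκ]

variable {g : Gauge R}

lemma exists_unit_frame_simple [Simple (𝟙_ C)] (hg : g.UnitaryF) :
    ∃ U : Frame R (𝟙_ C),
      (∀ b, (U.tensor g (Frame.simple R b)).star (Frame.simple R b) (λ_ (R.S b)).hom =
        (λ_ (R.S b)).inv) ∧
      (∀ a, ((Frame.simple R a).tensor g U).star (Frame.simple R a) (ρ_ (R.S a)).hom =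
        (ρ_ (R.S a)).inv) := by
  obtain ⟨U₀⟩ := Frame.nonempty R (𝟙_ C)
  obtain ⟨u, ⟨ψ⟩⟩ := R.complete (𝟙_ C) inferInstance
  have hl : ∀ b, ∃ x : ℝ, 0 < x ∧
      (U₀.tensor g (Frame.simple R b)).star (Frame.simple R b) (λ_ (R.S b)).hom ≫
        (λ_ (R.S b)).hom = (x : ℂ) • 𝟙 _ := by
    intro b
    apply Frame.exists_star_comp_self
    intro h
    apply id_ne_zero R b
    rw [← (λ_ (R.S b)).inv_hom_id, h, comp_zero]
  have hr : ∀ a, ∃ y : ℝ, 0 < y ∧
      ((Frame.simple R a).tensor g U₀).star (Frame.simple R a) (ρ_ (R.S a)).hom ≫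
        (ρ_ (R.S a)).hom = (y : ℂ) • 𝟙 _ := by
    intro a
    apply Frame.exists_star_comp_self
    intro h
    apply id_ne_zero R a
    rw [← (ρ_ (R.S a)).inv_hom_id, h, comp_zero]
  choose x hx hxl using hl
  choose y hy hyr using hr
  have hxy : ∀ a b, x b = y a := by
    intro a b
    have h1 : ((Frame.simple R a).tensor g U₀).star (Frame.simple R a) (ρ_ (R.S a)).hom ▷ R.S b =
        (R.S a ◁ (U₀.tensor g (Frame.simple R b)).star (Frame.simple R b) (λ_ (R.S b)).hom) ≫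
          (α_ _ _ _).inv := by
      rw [← Frame.star_whiskerRight, ← triangle,
        Frame.star_comp _ ((Frame.simple R a).tensor g (U₀.tensor g (Frame.simple R b))) _,
        Frame.star_assoc hg, Frame.star_whiskerLeft]
    have h2 : (((Frame.simple R a).tensor g U₀).star (Frame.simple R a) (ρ_ (R.S a)).hom ≫
        (ρ_ (R.S a)).hom) ▷ R.S b =
        R.S a ◁ ((U₀.tensor g (Frame.simple R b)).star (Frame.simple R b) (λ_ (R.S b)).hom ≫
          (λ_ (R.S b)).hom) := by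
      rw [comp_whiskerRight, h1, ← triangle, whiskerLeft_comp]
      simp
    rw [hxl, hyr, MonoidalLinear.smul_whiskerRight, MonoidalLinear.whiskerLeft_smul,
      id_whiskerRight, whiskerLeft_id] at h2
    have h3 : ((y a : ℂ) - x b) • 𝟙 (R.S a ⊗ R.S b) = 0 := by
      rw [sub_smul, h2, sub_self]
    rcases smul_eq_zero.mp h3 with h4 | h4
    · have := sub_eq_zero.mp h4
      exact_mod_cast this.symm
    · exact absurd h4 (id_tensor_ne_zero R a b)
  have hxu : ∀ b, x b = x u := fun b => by rw [hxy u b, hxy u u]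
  have hyu : ∀ b, y b = x u := fun b => (hxy b u).symm
  -- rescale
  set κ : ℝ := (Real.sqrt (x u))⁻¹ with hκ
  have hκ0 : 0 < κ := inv_pos.mpr (Real.sqrt_pos.mpr (hx u))
  have hκ2 : κ * κ * x u = 1 := by
    rw [hκ, ← mul_inv, Real.mul_self_sqrt (hx u).le, inv_mul_cancel₀ (hx u).ne']
  have hκc : (κ : ℂ) ≠ 0 := by exact_mod_cast hκ0.ne'
  set U : Frame R (𝟙_ C) := U₀.ofIso (scaleIso C κ hκc) with hU
  have hstar : U.star U₀ (𝟙 _) = ((κ * κ : ℝ) : ℂ) • 𝟙 _ := by
    have h1 := U₀.star_iso (scaleIso C κ hκc)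
    have h2 : (scaleIso C κ hκc).hom = (κ : ℂ) • 𝟙 _ := rfl
    have h3 : (scaleIso C κ hκc).inv = (κ : ℂ)⁻¹ • 𝟙 _ := rfl
    rw [h2, h3, Frame.star_smul, Complex.conj_ofReal, ← hU] at h1
    have h4 : U₀.star U (𝟙 _) = ((κ : ℂ)⁻¹ * (κ : ℂ)⁻¹) • 𝟙 _ := by
      rw [← smul_smul, ← h1, smul_smul, inv_mul_cancel₀ hκc, one_smul]
    have h5 := congrArg (U.star U₀) h4
    rw [Frame.star_star, Frame.star_smul] at h5
    conv_rhs => rw [h5, smul_smul, map_mul, map_inv₀, Complex.conj_ofReal]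
    push_cast
    rw [show (κ : ℂ) * κ * ((κ : ℂ)⁻¹ * (κ : ℂ)⁻¹) = 1 by field_simp, one_smul]
  refine ⟨U, fun b => ?_, fun a => ?_⟩
  · have h1 : (λ_ (R.S b)).hom = (𝟙 (𝟙_ C) ▷ R.S b) ≫ (λ_ (R.S b)).hom := by simp
    have h2 : (U.tensor g (Frame.simple R b)).star (Frame.simple R b) (λ_ (R.S b)).hom =
        ((κ * κ : ℝ) : ℂ) • (U₀.tensor g (Frame.simple R b)).star (Frame.simple R b)
          (λ_ (R.S b)).hom := by
      conv_lhs => rw [h1]
      rw [Frame.star_comp _ (U₀.tensor g (Frame.simple R b)) _, Frame.star_whiskerRight, hstar,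
        MonoidalLinear.smul_whiskerRight, id_whiskerRight, Linear.comp_smul, Category.comp_id]
    have h3 : (U.tensor g (Frame.simple R b)).star (Frame.simple R b) (λ_ (R.S b)).hom ≫
        (λ_ (R.S b)).hom = 𝟙 _ := by
      rw [h2, Linear.smul_comp, hxl, smul_smul, hxu b, ← Complex.ofReal_mul, hκ2]
      simp
    rw [← cancel_mono (λ_ (R.S b)).hom, h3, Iso.inv_hom_id]
  · have h1 : (ρ_ (R.S a)).hom = (R.S a ◁ 𝟙 (𝟙_ C)) ≫ (ρ_ (R.S a)).hom := by simp
    have h2 : ((Frame.simple R a).tensor g U).star (Frame.simple R a) (ρ_ (R.S a)).hom =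
        ((κ * κ : ℝ) : ℂ) • ((Frame.simple R a).tensor g U₀).star (Frame.simple R a)
          (ρ_ (R.S a)).hom := by
      conv_lhs => rw [h1]
      rw [Frame.star_comp _ ((Frame.simple R a).tensor g U₀) _, Frame.star_whiskerLeft, hstar,
        MonoidalLinear.whiskerLeft_smul, whiskerLeft_id, Linear.comp_smul, Category.comp_id]
    have h3 : ((Frame.simple R a).tensor g U).star (Frame.simple R a) (ρ_ (R.S a)).hom ≫
        (ρ_ (R.S a)).hom = 𝟙 _ := by
      rw [h2, Linear.smul_comp, hyr, smul_smul, hyu a, ← Complex.ofReal_mul, hκ2]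
      simp
    rw [← cancel_mono (ρ_ (R.S a)).hom, h3, Iso.inv_hom_id]

/-- There is a frame of the unit object for which all unit constraints are unitary. -/
lemma exists_unit_frame [Simple (𝟙_ C)] (hg : g.UnitaryF) :
    ∃ U : Frame R (𝟙_ C),
      (∀ {X : C} (F : Frame R X), (U.tensor g F).star F (λ_ X).hom = (λ_ X).inv) ∧
      (∀ {X : C} (F : Frame R X), (F.tensor g U).star F (ρ_ X).hom = (ρ_ X).inv) := by
  obtain ⟨U, hl, hr⟩ := exists_unit_frame_simple hg
  refine ⟨U, fun {X} F => ?_, fun {X} F => ?_⟩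
  · have h1 : (λ_ X).hom = ∑ b, ∑ k, (𝟙_ C ◁ F.prj b k) ≫ (λ_ (R.S b)).hom ≫ F.inc b k := by
      conv_lhs => rw [← Category.comp_id (λ_ X).hom, ← F.total]
      simp_rw [Preadditive.comp_sum]
      refine Finset.sum_congr rfl fun b _ => Finset.sum_congr rfl fun k _ => ?_
      rw [← Category.assoc, ← leftUnitor_naturality, Category.assoc]
    have h2 : (λ_ X).inv = ∑ b, ∑ k, F.prj b k ≫ (λ_ (R.S b)).inv ≫ (𝟙_ C ◁ F.inc b k) := by
      conv_lhs => rw [← Category.id_comp (λ_ X).inv, ← F.total]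
      simp_rw [Preadditive.sum_comp]
      refine Finset.sum_congr rfl fun b _ => Finset.sum_congr rfl fun k _ => ?_
      rw [Category.assoc, leftUnitor_inv_naturality]
    rw [h2]
    conv_lhs => rw [h1]
    simp_rw [Frame.star_sum]
    refine Finset.sum_congr rfl fun b _ => Finset.sum_congr rfl fun k _ => ?_
    rw [Frame.star_comp _ (U.tensor g (Frame.simple R b)) _,
      Frame.star_comp _ (Frame.simple R b) _, hl, Frame.star_whiskerLeft, Frame.star_prj,
      Frame.star_inc, Category.assoc]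
  · have h1 : (ρ_ X).hom = ∑ b, ∑ k, (F.prj b k ▷ 𝟙_ C) ≫ (ρ_ (R.S b)).hom ≫ F.inc b k := by
      conv_lhs => rw [← Category.comp_id (ρ_ X).hom, ← F.total]
      simp_rw [Preadditive.comp_sum]
      refine Finset.sum_congr rfl fun b _ => Finset.sum_congr rfl fun k _ => ?_
      rw [← Category.assoc, ← rightUnitor_naturality, Category.assoc]
    have h2 : (ρ_ X).inv = ∑ b, ∑ k, F.prj b k ≫ (ρ_ (R.S b)).inv ≫ (F.inc b k ▷ 𝟙_ C) := by
      conv_lhs => rw [← Category.id_comp (ρ_ X).inv, ← F.total]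
      simp_rw [Preadditive.sum_comp]
      refine Finset.sum_congr rfl fun b _ => Finset.sum_congr rfl fun k _ => ?_
      rw [Category.assoc, rightUnitor_inv_naturality]
    rw [h2]
    conv_lhs => rw [h1]
    simp_rw [Frame.star_sum]
    refine Finset.sum_congr rfl fun b _ => Finset.sum_congr rfl fun k _ => ?_
    rw [Frame.star_comp _ ((Frame.simple R b).tensor g U) _,
      Frame.star_comp _ (Frame.simple R b) _, hr, Frame.star_whiskerRight, Frame.star_prj,
      Frame.star_inc, Category.assoc]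

end Unit

end MP_7857a6_al
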